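import Pool.Agent.HB.A.Defs

/-!
# HB.A.C11: a convex function with quadratic second differences is `C^{1,1}`

PROOF.  Fix `x`.  (1) *Subgradient.*  There is a linear `ξ : X →L[ℝ] ℝ` with
`f (x + h) ≥ f x + ξ h` for all `h`.  (Hahn-Banach; two ways: (a) geometric: separate the point
`(x, f x)` from the open convex set `{(y, r) | f y < r}` of `X × ℝ` (`geometric_hahn_banach_point_open`
or `_open_point`); the coefficient of `r` is nonzero because `(x, f x + 1)` is in the set.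
(b) sublinear: `p h = inf_{t>0} (f (x+t h) - f x)/t` and `exists_extension_of_le_sublinear`.)
(2) By the subgradient inequality at `-h` and the hypothesis, for `‖x‖ ≤ R`, `‖h‖ ≤ R`:
`0 ≤ f (x+h) - f x - ξ h ≤ f (x+h) + f (x-h) - 2 f x ≤ C ‖h‖²`.  So `f` is differentiable at `x`
with derivative `ξ`, and for all `h` (any size) `f (x+h) ≥ f x + (fderiv ℝ f x) h`.
(3) Lipschitz: let `‖x‖, ‖y‖ ≤ R`, `y = x + u`, and let `C` be the constant for the radius `6R+6`.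
For `‖h‖ = ‖u‖` (if `u = 0` trivial):
`f'(y) h ≤ f(y+h) - f(y)`, `f(y+h) = f(x+(u+h)) ≤ f x + f'(x)(u+h) + C‖u+h‖²`,
`f(y) ≥ f x + f'(x) u`, so `f'(y) h ≤ f'(x) h + 4 C ‖u‖²`, i.e. `(f'(y)-f'(x)) h ≤ 4C ‖u‖ ‖h‖` for
all `h` with `‖h‖ = ‖u‖`, hence for all `h` by homogeneity; with `-h` the norm bound `4C‖u‖`.
-/

open Set

namespace Pool.Agent.HB

/-- Subgradients. -/
private theorem c11_sub {X : Type} [NormedAddCommGroup X] [NormedSpace ℝ X] {f : X → ℝ}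
    (hc : ConvexOn ℝ univ f) (hcont : Continuous f) (x : X) :
    ∃ ξ : X →L[ℝ] ℝ, ∀ h, f x + ξ h ≤ f (x + h) := by
  have hconv : Convex ℝ {p : X × ℝ | f p.1 < p.2} := by
    have := hc.convex_strict_epigraph
    simpa using this
  have hopen : IsOpen {p : X × ℝ | f p.1 < p.2} :=
    isOpen_lt (hcont.comp continuous_fst) continuous_snd
  obtain ⟨g, hg⟩ := geometric_hahn_banach_point_open (x := (x, f x)) hconv hopen
    (fun h => lt_irrefl (f x) h)
  have hadd : ∀ (h : X) (r : ℝ), g (x + h, f x + r) = g (x, f x) + (g (h, 0) + r * g (0, 1)) := by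
    intro h r
    have e : ((x + h, f x + r) : X × ℝ) = (x, f x) + ((h, 0) + r • (0, 1)) := by
      ext <;> simp
    rw [e, map_add, map_add, map_smul, smul_eq_mul]
  have hβ : 0 < g (0, 1) := by
    have h1 := hg (x + 0, f x + 1) (by simp)
    rw [hadd] at h1
    have h2 : g ((0 : X), (0 : ℝ)) = 0 := g.map_zero
    rw [h2] at h1
    linarith
  refine ⟨-((g (0, 1))⁻¹ • g.comp (ContinuousLinearMap.inl ℝ X ℝ)), fun h => ?_⟩
  have h1 : (-((g (0, 1))⁻¹ • g.comp (ContinuousLinearMap.inl ℝ X ℝ))) h =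
      -((g (0, 1))⁻¹ * g (h, 0)) := by
    simp
  rw [h1]
  apply le_of_forall_pos_le_add
  intro ε hε
  have h2 := hg (x + h, f x + (f (x + h) - f x + ε)) (by
    show f (x + h) < f x + (f (x + h) - f x + ε)
    linarith)
  rw [hadd] at h2
  have h3 : 0 < (g (0, 1))⁻¹ * (g (h, 0) + (f (x + h) - f x + ε) * g (0, 1)) :=
    mul_pos (inv_pos.2 hβ) (by linarith)
  have h4 : (g (0, 1))⁻¹ * (g (h, 0) + (f (x + h) - f x + ε) * g (0, 1)) =
      (g (0, 1))⁻¹ * g (h, 0) + (f (x + h) - f x + ε) := by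
    field_simp
  rw [h4] at h3
  linarith

theorem c11 {X : Type} [NormedAddCommGroup X] [NormedSpace ℝ X] {f : X → ℝ}
    (hc : ConvexOn ℝ univ f) (hcont : Continuous f)
    (hb : ∀ R : ℝ, ∃ C : ℝ, ∀ x h : X, ‖x‖ ≤ R → ‖h‖ ≤ R →
      f (x + h) + f (x - h) - 2 * f x ≤ C * ‖h‖ ^ 2) :
    Differentiable ℝ f ∧ (∀ x h, f x + fderiv ℝ f x h ≤ f (x + h)) ∧
      ∀ R : ℝ, ∃ K : ℝ, ∀ x y : X, ‖x‖ ≤ R → ‖y‖ ≤ R →
        ‖fderiv ℝ f x - fderiv ℝ f y‖ ≤ K * ‖x - y‖ := by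
  have hder : ∀ x, ∃ ξ : X →L[ℝ] ℝ, (∀ h, f x + ξ h ≤ f (x + h)) ∧ HasFDerivAt f ξ x := by
    intro x
    obtain ⟨ξ, hξ⟩ := c11_sub hc hcont x
    refine ⟨ξ, hξ, ?_⟩
    obtain ⟨C, hC⟩ := hb (‖x‖ + 1)
    rw [hasFDerivAt_iff_isLittleO_nhds_zero]
    refine Asymptotics.IsBigO.trans_isLittleO (g := fun h : X => ‖h‖ ^ 2) ?_
      (Asymptotics.isLittleO_norm_pow_id one_lt_two)
    refine Asymptotics.IsBigO.of_bound C ?_
    filter_upwards [Metric.ball_mem_nhds (0 : X) one_pos] with h hh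
    rw [mem_ball_zero_iff] at hh
    have h1 := hC x h (by linarith) (by have := norm_nonneg x; linarith)
    have h2 := hξ h
    have h3 := hξ (-h)
    simp only [map_neg, ← sub_eq_add_neg] at h3
    rw [Real.norm_eq_abs, Real.norm_eq_abs, abs_of_nonneg (by linarith),
      abs_of_nonneg (by positivity)]
    linarith
  have hdiff : Differentiable ℝ f := fun x => by
    obtain ⟨ξ, -, h⟩ := hder x
    exact h.differentiableAt
  have hsub : ∀ x h, f x + fderiv ℝ f x h ≤ f (x + h) := by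
    intro x h
    obtain ⟨ξ, h1, h2⟩ := hder x
    rw [h2.fderiv]
    exact h1 h
  refine ⟨hdiff, hsub, fun R => ?_⟩
  obtain ⟨C, hC⟩ := hb (6 * R + 6)
  have hup : ∀ x h : X, ‖x‖ ≤ 6 * R + 6 → ‖h‖ ≤ 6 * R + 6 →
      f (x + h) ≤ f x + fderiv ℝ f x h + |C| * ‖h‖ ^ 2 := by
    intro x h hx hh
    have h1 := hC x h hx hh
    have h2 := hsub x (-h)
    simp only [map_neg, ← sub_eq_add_neg] at h2
    have h3 : C * ‖h‖ ^ 2 ≤ |C| * ‖h‖ ^ 2 :=
      mul_le_mul_of_nonneg_right (le_abs_self C) (by positivity)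
    linarith
  refine ⟨4 * |C|, fun x y hx hy => ?_⟩
  have hR : 0 ≤ R := (norm_nonneg x).trans hx
  by_cases hxy : x = y
  · subst hxy
    simp
  have hu : 0 < ‖x - y‖ := norm_pos_iff.2 (sub_ne_zero.2 hxy)
  have hu2 : ‖x - y‖ ≤ 2 * R := by
    have := norm_sub_le x y
    linarith
  -- one sided estimate for the vectors of length `‖x - y‖`
  have key : ∀ h : X, ‖h‖ = ‖x - y‖ →
      (fderiv ℝ f x - fderiv ℝ f y) h ≤ 4 * |C| * ‖x - y‖ ^ 2 := by
    intro h hh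
    have h1 := hsub x h
    have h2 := hup y ((x - y) + h) (by linarith) (by
      have := norm_add_le (x - y) h
      linarith)
    have h3 := hsub y (x - y)
    have e1 : y + ((x - y) + h) = x + h := by abel
    have e2 : y + (x - y) = x := by abel
    rw [e1, map_add] at h2
    rw [e2] at h3
    have h4 : ‖(x - y) + h‖ ^ 2 ≤ 4 * ‖x - y‖ ^ 2 := by
      have h5 := norm_add_le (x - y) h
      have h6 := norm_nonneg ((x - y) + h)
      rw [hh] at h5
      nlinarith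
    have h7 : |C| * ‖(x - y) + h‖ ^ 2 ≤ |C| * (4 * ‖x - y‖ ^ 2) :=
      mul_le_mul_of_nonneg_left h4 (abs_nonneg C)
    show fderiv ℝ f x h - fderiv ℝ f y h ≤ _
    linarith
  refine ContinuousLinearMap.opNorm_le_bound _ (by positivity) fun h => ?_
  by_cases hh : h = 0
  · subst hh
    simp
  have hh' : 0 < ‖h‖ := norm_pos_iff.2 hh
  have hn : ‖(‖x - y‖ / ‖h‖) • h‖ = ‖x - y‖ := by
    rw [norm_smul, Real.norm_eq_abs, abs_of_pos (div_pos hu hh')]
    field_simp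
  have k1 := key _ hn
  have k2 := key (-((‖x - y‖ / ‖h‖) • h)) (by rw [norm_neg, hn])
  rw [map_neg] at k2
  rw [map_smul, smul_eq_mul] at k1 k2
  have k3 : ‖x - y‖ / ‖h‖ * |(fderiv ℝ f x - fderiv ℝ f y) h| ≤ 4 * |C| * ‖x - y‖ ^ 2 := by
    rcases abs_cases ((fderiv ℝ f x - fderiv ℝ f y) h) with ⟨e, -⟩ | ⟨e, -⟩
    · rw [e]
      exact k1
    · rw [e]
      linarith
  rw [Real.norm_eq_abs]
  have k4 : ‖x - y‖ / ‖h‖ * |(fderiv ℝ f x - fderiv ℝ f y) h| * (‖h‖ / ‖x - y‖) ≤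
      4 * |C| * ‖x - y‖ ^ 2 * (‖h‖ / ‖x - y‖) :=
    mul_le_mul_of_nonneg_right k3 (by positivity)
  have k5 : ‖x - y‖ / ‖h‖ * |(fderiv ℝ f x - fderiv ℝ f y) h| * (‖h‖ / ‖x - y‖) =
      |(fderiv ℝ f x - fderiv ℝ f y) h| := by field_simp
  have k6 : 4 * |C| * ‖x - y‖ ^ 2 * (‖h‖ / ‖x - y‖) = 4 * |C| * ‖x - y‖ * ‖h‖ := by
    field_simp
  rw [k5, k6] at k4
  exact k4

end Pool.Agent.HB
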