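import Pool.Agent.HB.A.Defs

/-!
# HB.A.Conv1: derivative of a one-dimensional convolution

PROOF.  For fixed `x`, substitute `r ↦ r - t`:
`∫ ρ(r) g(x + t v + r v) dr = ∫ ρ(r - t) g(x + r v) dr` (`integral_sub_right_eq_self` /
`integral_add_right_eq_self`), and differentiate under the integral sign in `t` at `0`
(`hasDerivAt_integral_of_dominated_loc_of_deriv_le`): for `|t| ≤ 1` the integrand vanishes unless
`|r| ≤ 2`, `g` is bounded on the compact segment `{x + r v : |r| ≤ 2}`, and `deriv ρ` is bounded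
(`deriv ρ` is continuous with support in `[-1,1]`).  `∂_t ρ(r - t) = -ρ'(r-t)`.
-/

open MeasureTheory

namespace Pool.Agent.HB

private lemma conv1_supp (k : Kern) {s : ℝ} (hs : 1 ≤ |s|) : deriv k.ρ s = 0 := by
  apply IsLocalMin.deriv_eq_zero
  refine Filter.Eventually.of_forall fun y => ?_
  show k.ρ s ≤ k.ρ y
  rw [k.supp s hs]
  exact k.nonneg y

private lemma conv1_cont (k : Kern) : Continuous (deriv k.ρ) :=
  k.smooth.continuous_deriv (by exact_mod_cast le_top)

private lemma conv1_diff (k : Kern) : Differentiable ℝ k.ρ :=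
  k.smooth.differentiable (by simp)

private lemma conv1_cs {σ : ℝ → ℝ} (hσ : ∀ s, 1 ≤ |s| → σ s = 0) : HasCompactSupport σ := by
  refine HasCompactSupport.intro (isCompact_Icc (a := (-1 : ℝ)) (b := 1)) fun s hs => ?_
  apply hσ
  by_contra h
  push Not at h
  exact hs ⟨(abs_le.1 h.le).1, (abs_le.1 h.le).2⟩

private lemma conv1_int {Y : Type} [NormedAddCommGroup Y] [NormedSpace ℝ Y] {σ : ℝ → ℝ}
    (hc : Continuous σ) (hσ : ∀ s, 1 ≤ |s| → σ s = 0) {h : ℝ → Y} (hh : Continuous h) :
    Integrable (fun r => σ r • h r) :=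
  (hc.smul hh).integrable_of_hasCompactSupport ((conv1_cs hσ).smul_right)

/-- A bound near the compact segment. -/
private lemma conv1_bd {X Y : Type} [NormedAddCommGroup X] [NormedSpace ℝ X]
    [NormedAddCommGroup Y] (g : X → Y) (hg : Continuous g) (v x : X) (a : ℝ) :
    ∃ B δ : ℝ, 0 ≤ B ∧ 0 < δ ∧ ∀ y, ‖y - x‖ < δ → ∀ r : ℝ, |r| ≤ a → ‖g (y + r • v)‖ ≤ B := by
  have hK : IsCompact ((fun r : ℝ => x + r • v) '' Set.Icc (-a) a) :=
    isCompact_Icc.image (by fun_prop)
  obtain ⟨B, hB⟩ := hK.exists_bound_of_continuousOn hg.continuousOn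
  have hU : IsOpen {y : X | ‖g y‖ < |B| + 1} := isOpen_lt hg.norm continuous_const
  have hKU : (fun r : ℝ => x + r • v) '' Set.Icc (-a) a ⊆ {y : X | ‖g y‖ < |B| + 1} := by
    intro y hy
    have h1 := hB y hy
    have h2 := le_abs_self B
    show ‖g y‖ < |B| + 1
    linarith
  obtain ⟨δ, hδ, hth⟩ := hK.exists_thickening_subset_open hU hKU
  refine ⟨|B| + 1, δ, by positivity, hδ, ?_⟩
  intro y hy r hr
  have h1 : y + r • v ∈ Metric.thickening δ ((fun r : ℝ => x + r • v) '' Set.Icc (-a) a) := by
    rw [Metric.mem_thickening_iff]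
    refine ⟨x + r • v, ⟨r, abs_le.1 hr, rfl⟩, ?_⟩
    rw [dist_eq_norm, add_sub_add_right_eq_sub]
    exact hy
  exact (hth h1).le

theorem conv_deriv (k : Kern) {X Y : Type} [NormedAddCommGroup X] [NormedSpace ℝ X]
    [NormedAddCommGroup Y] [NormedSpace ℝ Y] [CompleteSpace Y] (g : X → Y) (hg : Continuous g)
    (v x : X) :
    HasDerivAt (fun t : ℝ => ∫ r, k.ρ r • g (x + t • v + r • v))
      (-∫ r, deriv k.ρ r • g (x + r • v)) 0 := by
  have hρc := k.smooth.continuous
  have hdc := conv1_cont k
  have e1 : (fun t : ℝ => ∫ r, k.ρ r • g (x + t • v + r • v)) =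
      fun t : ℝ => ∫ r, k.ρ (r - t) • g (x + r • v) := by
    funext t
    have h1 := integral_sub_right_eq_self (μ := (volume : Measure ℝ))
      (fun r : ℝ => k.ρ r • g (x + t • v + r • v)) t
    rw [← h1]
    congr 1
    funext r
    congr 2
    rw [add_assoc, ← add_smul]
    congr 2
    ring
  rw [e1]
  obtain ⟨B, δ, hB, hδ, hb⟩ := conv1_bd g hg v x 2
  obtain ⟨D, hD⟩ := (hdc.bounded_above_of_compact_support (conv1_cs fun s hs => conv1_supp k hs))
  have hD0 : 0 ≤ D := (norm_nonneg _).trans (hD 0)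
  have key := hasDerivAt_integral_of_dominated_loc_of_deriv_le (μ := (volume : Measure ℝ))
    (F := fun t r => k.ρ (r - t) • g (x + r • v))
    (F' := fun t r => (-deriv k.ρ (r - t)) • g (x + r • v)) (x₀ := 0)
    (s := Metric.ball 0 1)
    (bound := (Set.Icc (-2 : ℝ) 2).indicator fun _ => D * B)
    (Metric.ball_mem_nhds 0 one_pos)
    (Filter.Eventually.of_forall fun t => by
      apply Continuous.aestronglyMeasurable
      fun_prop)
    (by
      simp only [sub_zero]
      exact conv1_int hρc k.supp (by fun_prop))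
    (by
      apply Continuous.aestronglyMeasurable
      fun_prop)
    (Filter.Eventually.of_forall fun r t ht => by
      rw [Metric.mem_ball, dist_zero_right, Real.norm_eq_abs] at ht
      by_cases hr : r ∈ Set.Icc (-2 : ℝ) 2
      · rw [Set.indicator_of_mem hr, norm_smul, norm_neg]
        refine mul_le_mul (hD _) ?_ (norm_nonneg _) hD0
        exact hb x (by simpa using hδ) r (abs_le.2 hr)
      · rw [Set.indicator_of_notMem hr]
        have h1 : 2 < |r| := by
          by_contra h
          push Not at h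
          exact hr (abs_le.1 h)
        have h2 : 1 ≤ |r - t| := by
          have := abs_sub_abs_le_abs_sub r t
          linarith
        rw [conv1_supp k h2, neg_zero, zero_smul, norm_zero])
    (by
      rw [integrable_indicator_iff measurableSet_Icc]
      exact integrableOn_const (by simp))
    (Filter.Eventually.of_forall fun r t _ => by
      have h1 : HasDerivAt (fun t : ℝ => k.ρ (r - t)) (-deriv k.ρ (r - t)) t := by
        have h2 := (conv1_diff k (r - t)).hasDerivAt
        have h3 := h2.comp t ((hasDerivAt_id t).const_sub r)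
        rw [mul_neg_one] at h3
        exact h3
      exact h1.smul_const _)
  have h2 := key.2
  have e2 : (∫ r, (-deriv k.ρ (r - 0)) • g (x + r • v)) = -∫ r, deriv k.ρ r • g (x + r • v) := by
    rw [← integral_neg]
    congr 1
    funext r
    rw [sub_zero, neg_smul]
  rw [e2] at h2
  exact h2

private lemma conv1_cc {X Y : Type} [NormedAddCommGroup X] [NormedSpace ℝ X]
    [NormedAddCommGroup Y] [NormedSpace ℝ Y] (g : X → Y) (hg : Continuous g)
    (v : X) {σ : ℝ → ℝ} (hc : Continuous σ) (hσ : ∀ s, 1 ≤ |s| → σ s = 0) :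
    Continuous (fun x => ∫ r, σ r • g (x + r • v)) := by
  rw [continuous_iff_continuousAt]
  intro x
  obtain ⟨B, δ, hB, hδ, hb⟩ := conv1_bd g hg v x 1
  refine continuousAt_of_dominated (bound := fun r => |σ r| * B)
    (Filter.Eventually.of_forall fun y => by
      apply Continuous.aestronglyMeasurable
      fun_prop) ?_ ?_ (Filter.Eventually.of_forall fun r => by
      apply Continuous.continuousAt
      fun_prop)
  · filter_upwards [Metric.ball_mem_nhds x hδ] with y hy
    rw [Metric.mem_ball, dist_eq_norm] at hy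
    refine Filter.Eventually.of_forall fun r => ?_
    rw [norm_smul, Real.norm_eq_abs]
    rcases le_or_gt |r| 1 with h | h
    · exact mul_le_mul_of_nonneg_left (hb y hy r h) (abs_nonneg _)
    · rw [hσ r h.le, abs_zero, zero_mul, zero_mul]
  · have h1 := conv1_int (Y := ℝ) hc hσ (h := fun _ => (1 : ℝ)) continuous_const
    simp only [smul_eq_mul, mul_one] at h1
    exact h1.abs.mul_const B

/-- `x ↦ ∫ ρ(r) g(x + r v) dr` is continuous, and so is `x ↦ ∫ ρ'(r) g(x + r v) dr`. -/
theorem conv_cont (k : Kern) {X Y : Type} [NormedAddCommGroup X] [NormedSpace ℝ X]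
    [NormedAddCommGroup Y] [NormedSpace ℝ Y] [CompleteSpace Y] (g : X → Y) (hg : Continuous g)
    (v : X) :
    Continuous (fun x => ∫ r, k.ρ r • g (x + r • v)) ∧
      Continuous (fun x => ∫ r, deriv k.ρ r • g (x + r • v)) :=
  ⟨conv1_cc g hg v k.smooth.continuous k.supp,
    conv1_cc g hg v (conv1_cont k) fun _ hs => conv1_supp k hs⟩

/-- Bounds: if `‖g‖ ≤ B` on the segment `x + [-1,1] v`. -/
theorem conv_bound (k : Kern) : ∃ D : ℝ, 0 ≤ D ∧ ∀ {X Y : Type} [NormedAddCommGroup X]
    [NormedSpace ℝ X] [NormedAddCommGroup Y] [NormedSpace ℝ Y] [CompleteSpace Y] (g : X → Y),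
    Continuous g → ∀ (v x : X) (B : ℝ), 0 ≤ B → (∀ r : ℝ, |r| ≤ 1 → ‖g (x + r • v)‖ ≤ B) →
    ‖∫ r, k.ρ r • g (x + r • v)‖ ≤ B ∧ ‖∫ r, deriv k.ρ r • g (x + r • v)‖ ≤ D * B := by
  have i1 : Integrable k.ρ := by
    have h1 := conv1_int (Y := ℝ) k.smooth.continuous k.supp (h := fun _ => (1 : ℝ))
      continuous_const
    simpa only [smul_eq_mul, mul_one] using h1
  have i2 : Integrable (deriv k.ρ) := by
    have h1 := conv1_int (Y := ℝ) (conv1_cont k) (fun _ hs => conv1_supp k hs)
      (h := fun _ => (1 : ℝ)) continuous_const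
    simpa only [smul_eq_mul, mul_one] using h1
  refine ⟨∫ r, |deriv k.ρ r|, integral_nonneg fun r => abs_nonneg _, ?_⟩
  intro X Y _ _ _ _ _ g hg v x B hB hb
  constructor
  · have h1 := norm_integral_le_of_norm_le (f := fun r => k.ρ r • g (x + r • v))
      (i1.mul_const B) (Filter.Eventually.of_forall fun r => by
        rw [norm_smul, Real.norm_eq_abs, abs_of_nonneg (k.nonneg r)]
        rcases le_or_gt |r| 1 with h | h
        · exact mul_le_mul_of_nonneg_left (hb r h) (k.nonneg r)
        · rw [k.supp r h.le, zero_mul, zero_mul])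
    rw [integral_mul_const, k.int, one_mul] at h1
    exact h1
  · have h1 := norm_integral_le_of_norm_le (f := fun r => deriv k.ρ r • g (x + r • v))
      (i2.abs.mul_const B) (Filter.Eventually.of_forall fun r => by
        rw [norm_smul, Real.norm_eq_abs]
        rcases le_or_gt |r| 1 with h | h
        · exact mul_le_mul_of_nonneg_left (hb r h) (abs_nonneg _)
        · rw [conv1_supp k h.le, abs_zero, zero_mul, zero_mul])
    rw [integral_mul_const] at h1
    exact h1

end Pool.Agent.HB
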