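import Mathlib

/-!
# HB part A: definitions for the abstract `C²` bump criterion (MP_404f39)
-/

open MeasureTheory Set

noncomputable section

namespace Pool.Agent.HB

/-- An even smooth probability density on the line, supported in `[-1, 1]`. -/
structure Kern where
  ρ : ℝ → ℝ
  smooth : ContDiff ℝ (⊤ : ℕ∞) ρ
  nonneg : ∀ s, 0 ≤ ρ s
  even : ∀ s, ρ (-s) = ρ s
  supp : ∀ s, 1 ≤ |s| → ρ s = 0
  int : ∫ s, ρ s = 1

/-- Partial sum projection of a system `(e, φ)`. -/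
def PP {X : Type} [NormedAddCommGroup X] [NormedSpace ℝ X] (e : ℕ → X) (φ : ℕ → (X →L[ℝ] ℝ))
    (m : ℕ) (x : X) : X := ∑ i ∈ Finset.range m, φ i x • e i

/-- `(e, φ)` is a Schauder basis with basis constant at most `K`. -/
structure Bas {X : Type} [NormedAddCommGroup X] [NormedSpace ℝ X] (e : ℕ → X)
    (φ : ℕ → (X →L[ℝ] ℝ)) (K : ℝ) : Prop where
  bio : ∀ i j, φ i (e j) = if i = j then 1 else 0
  bdd : ∀ m x, ‖PP e φ m x‖ ≤ K * ‖x‖
  lim : ∀ x, Filter.Tendsto (fun m => PP e φ m x) Filter.atTop (nhds x)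

/-- A noise adapted to the directions `e i`: a random vector `W` with values in a compact set
whose law is, for every `i`, the convolution of the law of `V i` with the law of
`r • (c i • e i)`, `r` of density `ρ`; `W` is symmetric. -/
structure Noise {X : Type} [NormedAddCommGroup X] [NormedSpace ℝ X] (e : ℕ → X) (k : Kern) where
  Ω : Type
  mΩ : MeasurableSpace Ω
  P : @Measure Ω mΩ
  prob : @IsProbabilityMeasure Ω mΩ P
  K : Set X
  comp : IsCompact K
  c : ℕ → ℝ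
  cpos : ∀ i, 0 < c i
  W : Ω → X
  Wm : @StronglyMeasurable Ω X _ mΩ W
  WK : ∀ ω, W ω ∈ K
  V : ℕ → Ω → X
  Vm : ∀ i, @StronglyMeasurable Ω X _ mΩ (V i)
  VK : ∀ i ω, V i ω ∈ K
  symm : ∀ (Y : Type) [NormedAddCommGroup Y] [NormedSpace ℝ Y] [CompleteSpace Y] (g : X → Y),
    Continuous g → ∫ ω, g (-W ω) ∂P = ∫ ω, g (W ω) ∂P
  split : ∀ (i : ℕ) (Y : Type) [NormedAddCommGroup Y] [NormedSpace ℝ Y] [CompleteSpace Y]
    (g : X → Y), Continuous g →
    ∫ ω, g (W ω) ∂P = ∫ ω, (∫ r, k.ρ r • g (r • (c i • e i) + V i ω)) ∂P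

end Pool.Agent.HB
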