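import Pool.Agent.HB.A.Defs

/-!
# HB.A.Kern: existence of the kernel

PROOF.  Take `f : ContDiffBump (0 : ℝ)` with `rIn = 1/2`, `rOut = 1`, and `ρ = f.normed volume`.
`ContDiffBump.contDiff_normed`, `nonneg_normed`, `integral_normed`, `support_normed_eq` (support is
the open ball of radius `rOut`), and evenness from `ContDiffBump.neg`/`normed_neg`.
-/

namespace Pool.Agent.HB

open MeasureTheory in
theorem kern_nonempty : Nonempty Kern := by
  let f : ContDiffBump (0 : ℝ) := ⟨1 / 2, 1, by norm_num, by norm_num⟩
  refine ⟨⟨f.normed volume, f.contDiff_normed, f.nonneg_normed, f.normed_neg, fun s hs => ?_,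
    f.integral_normed⟩⟩
  have h : s ∉ Function.support (f.normed volume) := by
    rw [f.support_normed_eq]
    intro h
    rw [Metric.mem_ball, dist_zero_right, Real.norm_eq_abs] at h
    exact absurd hs (not_le.2 h)
  exact Function.notMem_support.1 h

end Pool.Agent.HB
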