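import Pool.Agent.HB.A.Defs

/-!
# HB.A.Noise: existence of the noise

PROOF.  `Ω = ℕ → ℝ` with `P = Measure.infinitePi (fun _ => μ)`, `μ = volume.withDensity (ofReal ρ)`
(a probability measure on `ℝ`, concentrated on `[-1,1]`, invariant under negation since `ρ` is even).
`clamp r = max (-1) (min 1 r)`; `c i = 2^{-i} / (1 + ‖e i‖) > 0`;
`S s = ∑' i, clamp (s i) • (c i • e i)` (absolutely convergent, `‖term i‖ ≤ 2^{-i}`; `S` is continuous
in the product topology: `continuous_tsum`), `W = S`, `V i s = S (Function.update s i 0)`.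
`K = range S = S '' (pi univ (Icc (-1) 1))` is compact (Tychonoff; `S s = S (clamp ∘ s)`), contains the
values of `V i`.  Strong measurability: `S` is continuous from a second countable space
(`Continuous.stronglyMeasurable`), `Function.update · i 0` is measurable/continuous.
*Symmetry*: `S (-s) = - S s` and `P` is invariant under negation (`Measure.eq_infinitePi`, or
`infinitePi_map_pi`).
*Splitting*: the map `Φ : (ℕ → ℝ) × ℝ → (ℕ → ℝ)`, `Φ (s, r) = Function.update s i r` is measurable and
maps `P.prod μ` to `P` (`Measure.eq_infinitePi`: check on boxes over a finset, Fubini/`prod_prod`).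
Hence `∫ g(W) dP = ∫∫ g(S(update s i r)) dμ(r) dP(s)`, and
`S (update s i r) = clamp r • (c i • e i) + S (update s i 0)`; since `ρ` vanishes off `[-1,1]`,
`∫ g(...) dμ(r) = ∫ ρ(r) g(r • (c i • e i) + V i s) dr` (`integral_withDensity_eq_integral_smul`).
`g ∘ S` is bounded (compact range) and continuous so everything is integrable.
-/

open MeasureTheory

namespace Pool.Agent.HB

/-- The law of one coordinate. -/
private noncomputable def noise_mu (k : Kern) : Measure ℝ :=
  (volume : Measure ℝ).withDensity fun r => ENNReal.ofReal (k.ρ r)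

private theorem noise_meas (k : Kern) : Measurable fun r => ENNReal.ofReal (k.ρ r) :=
  k.smooth.continuous.measurable.ennreal_ofReal

private theorem noise_prob (k : Kern) : IsProbabilityMeasure (noise_mu k) := by
  refine ⟨?_⟩
  have hint : Integrable k.ρ := by
    by_contra h
    have h1 := integral_undef h
    rw [k.int] at h1
    exact one_ne_zero h1
  rw [noise_mu, withDensity_apply _ MeasurableSet.univ, Measure.restrict_univ,
    ← ofReal_integral_eq_lintegral_ofReal hint (Filter.Eventually.of_forall k.nonneg), k.int,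
    ENNReal.ofReal_one]

private theorem noise_mu_neg (k : Kern) : (noise_mu k).map (fun r : ℝ => -r) = noise_mu k := by
  ext s hs
  have hm : Measurable (fun r : ℝ => -r) := measurable_neg
  rw [Measure.map_apply hm hs, noise_mu, withDensity_apply _ (hm hs), withDensity_apply _ hs]
  have h := (Measure.measurePreserving_neg (volume : Measure ℝ)).setLIntegral_comp_preimage hs
    (noise_meas k)
  rw [← h]
  refine lintegral_congr fun r => ?_
  rw [k.even]

private noncomputable def noise_cl (r : ℝ) : ℝ := max (-1) (min 1 r)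

private theorem noise_cl_cont : Continuous noise_cl :=
  continuous_const.max (continuous_const.min continuous_id)

private theorem noise_cl_mem (r : ℝ) : noise_cl r ∈ Set.Icc (-1 : ℝ) 1 :=
  ⟨le_max_left _ _, max_le (by norm_num) (min_le_left _ _)⟩

private theorem noise_cl_of_mem {r : ℝ} (h : r ∈ Set.Icc (-1 : ℝ) 1) : noise_cl r = r := by
  rw [noise_cl, min_eq_right h.2, max_eq_right h.1]

private theorem noise_cl_neg (r : ℝ) : noise_cl (-r) = -noise_cl r := by
  unfold noise_cl
  rcases le_total r (-1) with h | h
  · rw [min_eq_left (by linarith : (1 : ℝ) ≤ -r), min_eq_right (by linarith : r ≤ 1),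
      max_eq_right (by norm_num : (-1 : ℝ) ≤ 1), max_eq_left h]
    norm_num
  · rcases le_total r 1 with h' | h'
    · rw [min_eq_right (by linarith : -r ≤ 1), min_eq_right h', max_eq_right (by linarith),
        max_eq_right h]
    · rw [min_eq_right (by linarith : -r ≤ 1), min_eq_left h', max_eq_left (by linarith),
        max_eq_right (by norm_num : (-1 : ℝ) ≤ 1)]

private theorem noise_cl_zero : noise_cl 0 = 0 :=
  noise_cl_of_mem ⟨by norm_num, by norm_num⟩

section

variable {X : Type} [NormedAddCommGroup X] [NormedSpace ℝ X]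

private noncomputable def noise_c (e : ℕ → X) (i : ℕ) : ℝ := (1 / 2 : ℝ) ^ i / (1 + ‖e i‖)

omit [NormedSpace ℝ X] in
private theorem noise_c_pos (e : ℕ → X) (i : ℕ) : 0 < noise_c e i := by
  have : 0 ≤ ‖e i‖ := norm_nonneg _
  unfold noise_c
  positivity

private noncomputable def noise_t (e : ℕ → X) (i : ℕ) (s : ℕ → ℝ) : X :=
  noise_cl (s i) • (noise_c e i • e i)

private theorem noise_t_le (e : ℕ → X) (i : ℕ) (s : ℕ → ℝ) :
    ‖noise_t e i s‖ ≤ (1 / 2 : ℝ) ^ i := by
  have h0 : 0 ≤ ‖e i‖ := norm_nonneg _
  have h1 : ‖noise_cl (s i)‖ ≤ 1 := by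
    rw [Real.norm_eq_abs, abs_le]
    exact noise_cl_mem _
  have h2 : ‖noise_c e i • e i‖ ≤ (1 / 2 : ℝ) ^ i := by
    rw [norm_smul, Real.norm_eq_abs, abs_of_pos (noise_c_pos e i), noise_c, div_mul_eq_mul_div]
    rw [div_le_iff₀ (by positivity)]
    exact mul_le_mul_of_nonneg_left (by linarith) (by positivity)
  calc ‖noise_t e i s‖ = ‖noise_cl (s i)‖ * ‖noise_c e i • e i‖ := norm_smul _ _
    _ ≤ 1 * (1 / 2 : ℝ) ^ i := mul_le_mul h1 h2 (norm_nonneg _) zero_le_one
    _ = _ := one_mul _

private theorem noise_t_cont (e : ℕ → X) (i : ℕ) : Continuous (noise_t e i) :=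
  (noise_cl_cont.comp (continuous_apply i)).smul continuous_const

private noncomputable def noise_S (e : ℕ → X) (s : ℕ → ℝ) : X := ∑' i, noise_t e i s

private theorem noise_sum [CompleteSpace X] (e : ℕ → X) (s : ℕ → ℝ) :
    Summable fun i => noise_t e i s :=
  Summable.of_norm_bounded (g := fun i => (1 / 2 : ℝ) ^ i)
    (summable_geometric_of_lt_one (by norm_num) (by norm_num)) (fun i => noise_t_le e i s)

private theorem noise_S_cont [CompleteSpace X] (e : ℕ → X) : Continuous (noise_S e) :=
  continuous_tsum (noise_t_cont e)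
    (summable_geometric_of_lt_one (by norm_num) (by norm_num : (1 / 2 : ℝ) < 1))
    (fun i s => noise_t_le e i s)

private theorem noise_S_neg (e : ℕ → X) (s : ℕ → ℝ) :
    noise_S e (fun i => -s i) = -noise_S e s := by
  unfold noise_S
  rw [← tsum_neg]
  refine tsum_congr fun i => ?_
  unfold noise_t
  rw [noise_cl_neg, neg_smul]

private theorem noise_S_mem (e : ℕ → X) (s : ℕ → ℝ) :
    noise_S e s ∈ noise_S e '' (Set.univ.pi fun _ => Set.Icc (-1 : ℝ) 1) := by
  refine ⟨fun i => noise_cl (s i), fun i _ => noise_cl_mem _, ?_⟩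
  unfold noise_S
  refine tsum_congr fun i => ?_
  unfold noise_t
  rw [noise_cl_of_mem (noise_cl_mem _)]

private theorem noise_K [CompleteSpace X] (e : ℕ → X) :
    IsCompact (noise_S e '' (Set.univ.pi fun _ => Set.Icc (-1 : ℝ) 1)) :=
  (isCompact_univ_pi fun _ => isCompact_Icc).image (noise_S_cont e)

private theorem noise_S_upd [CompleteSpace X] (e : ℕ → X) (s : ℕ → ℝ) (i : ℕ) (r : ℝ) :
    noise_S e (Function.update s i r) =
      noise_cl r • (noise_c e i • e i) + noise_S e (Function.update s i 0) := by
  unfold noise_S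
  rw [(noise_sum e (Function.update s i r)).tsum_eq_add_tsum_ite i]
  congr 1
  · unfold noise_t
    rw [Function.update_self]
  · refine tsum_congr fun j => ?_
    by_cases h : j = i
    · rw [if_pos h, h]
      unfold noise_t
      rw [Function.update_self, noise_cl_zero, zero_smul]
    · rw [if_neg h]
      unfold noise_t
      rw [Function.update_of_ne h, Function.update_of_ne h]

end

private theorem noise_P_neg (k : Kern) [IsProbabilityMeasure (noise_mu k)] :
    (Measure.infinitePi fun _ : ℕ => noise_mu k).map (fun s i => -s i) =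
      Measure.infinitePi fun _ : ℕ => noise_mu k := by
  have h := Measure.infinitePi_map_pi (μ := fun _ : ℕ => noise_mu k)
    (f := fun (_ : ℕ) (r : ℝ) => -r) (fun _ => measurable_neg)
  rw [h]
  congr 1
  funext i
  exact noise_mu_neg k

private theorem noise_P_split (k : Kern) [IsProbabilityMeasure (noise_mu k)] (i : ℕ) :
    ((Measure.infinitePi fun _ : ℕ => noise_mu k).prod (noise_mu k)).map
      (fun q : (ℕ → ℝ) × ℝ => Function.update q.1 i q.2) =
      Measure.infinitePi fun _ : ℕ => noise_mu k := by
  have hc : Continuous (fun q : (ℕ → ℝ) × ℝ => Function.update q.1 i q.2) :=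
    continuous_fst.update i continuous_snd
  refine Measure.eq_infinitePi (fun _ : ℕ => noise_mu k) fun s t ht => ?_
  have ht' : MeasurableSet (Set.pi (s : Set ℕ) t) :=
    MeasurableSet.pi s.countable_toSet fun j _ => ht j
  rw [Measure.map_apply hc.measurable ht']
  have hpre : (fun q : (ℕ → ℝ) × ℝ => Function.update q.1 i q.2) ⁻¹' (Set.pi (s : Set ℕ) t) =
      (Set.pi ((s.erase i : Finset ℕ) : Set ℕ) t) ×ˢ (if i ∈ s then t i else Set.univ) := by
    ext ⟨x, r⟩
    rw [Set.mem_preimage, Set.mem_prod]
    constructor
    · intro h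
      refine ⟨fun j hj => ?_, ?_⟩
      · have hj' := Finset.mem_erase.1 (Finset.mem_coe.1 hj)
        have h1 := h j (Finset.mem_coe.2 hj'.2)
        change Function.update x i r j ∈ t j at h1
        rwa [Function.update_of_ne hj'.1] at h1
      · split_ifs with hi
        · have h1 := h i (Finset.mem_coe.2 hi)
          change Function.update x i r i ∈ t i at h1
          rwa [Function.update_self] at h1
        · exact Set.mem_univ _
    · rintro ⟨h1, h2⟩ j hj
      change Function.update x i r j ∈ t j
      by_cases hji : j = i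
      · subst hji
        rw [Function.update_self]
        rwa [if_pos (Finset.mem_coe.1 hj)] at h2
      · rw [Function.update_of_ne hji]
        exact h1 j (Finset.mem_coe.2 (Finset.mem_erase.2 ⟨hji, Finset.mem_coe.1 hj⟩))
  rw [hpre, Measure.prod_prod, Measure.infinitePi_pi (μ := fun _ : ℕ => noise_mu k)
    (fun j _ => ht j)]
  split_ifs with hi
  · rw [Finset.prod_erase_mul (s := s) (f := fun j => noise_mu k (t j)) hi]
  · rw [Finset.erase_eq_of_notMem hi, measure_univ, mul_one]

theorem noise_exists {X : Type} [NormedAddCommGroup X] [NormedSpace ℝ X] [CompleteSpace X]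
    (e : ℕ → X) (k : Kern) : Nonempty (Noise e k) := by

  have := noise_prob k
  have hgm : ∀ (Y : Type) [NormedAddCommGroup Y] (g : X → Y), Continuous g →
      StronglyMeasurable fun s : ℕ → ℝ => g (noise_S e s) := fun Y _ g hg =>
    (hg.comp (noise_S_cont e)).stronglyMeasurable
  refine ⟨{
    Ω := ℕ → ℝ
    mΩ := MeasurableSpace.pi
    P := Measure.infinitePi fun _ : ℕ => noise_mu k
    prob := inferInstance
    K := noise_S e '' (Set.univ.pi fun _ => Set.Icc (-1 : ℝ) 1)
    comp := noise_K e
    c := noise_c e
    cpos := noise_c_pos e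
    W := noise_S e
    Wm := (noise_S_cont e).stronglyMeasurable
    WK := noise_S_mem e
    V := fun i s => noise_S e (Function.update s i 0)
    Vm := fun i => ((noise_S_cont e).comp
      (continuous_id.update i continuous_const)).stronglyMeasurable
    VK := fun i s => noise_S_mem e _
    symm := ?_
    split := ?_ }⟩
  · intro Y _ _ _ g hg
    have hm : Measurable (fun (s : ℕ → ℝ) (i : ℕ) => -s i) :=
      measurable_pi_lambda _ fun i => (measurable_pi_apply i).neg
    have h1 : ∫ s, g (noise_S e s) ∂((Measure.infinitePi fun _ : ℕ => noise_mu k).map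
        (fun (s : ℕ → ℝ) (i : ℕ) => -s i)) =
        ∫ s, g (noise_S e (fun i => -s i)) ∂(Measure.infinitePi fun _ : ℕ => noise_mu k) :=
      integral_map hm.aemeasurable (hgm Y g hg).aestronglyMeasurable
    rw [noise_P_neg] at h1
    rw [h1]
    refine integral_congr_ae (Filter.Eventually.of_forall fun s => ?_)
    change g (-noise_S e s) = g (noise_S e fun i => -s i)
    rw [noise_S_neg]
  · intro i Y _ _ _ g hg
    have hc : Continuous (fun q : (ℕ → ℝ) × ℝ => Function.update q.1 i q.2) :=
      continuous_fst.update i continuous_snd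
    obtain ⟨C, hC⟩ := (noise_K e).exists_bound_of_continuousOn hg.continuousOn
    have h1 : ∫ s, g (noise_S e s) ∂(((Measure.infinitePi fun _ : ℕ => noise_mu k).prod
        (noise_mu k)).map (fun q : (ℕ → ℝ) × ℝ => Function.update q.1 i q.2)) =
        ∫ q, g (noise_S e (Function.update q.1 i q.2))
          ∂((Measure.infinitePi fun _ : ℕ => noise_mu k).prod (noise_mu k)) :=
      integral_map hc.measurable.aemeasurable (hgm Y g hg).aestronglyMeasurable
    rw [noise_P_split] at h1
    have hint : Integrable (fun q : (ℕ → ℝ) × ℝ => g (noise_S e (Function.update q.1 i q.2)))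
        ((Measure.infinitePi fun _ : ℕ => noise_mu k).prod (noise_mu k)) := by
      refine Integrable.of_bound
        ((hg.comp ((noise_S_cont e).comp hc)).stronglyMeasurable.aestronglyMeasurable) C
        (Filter.Eventually.of_forall fun q => ?_)
      exact hC _ (noise_S_mem e _)
    rw [integral_prod _ hint] at h1
    rw [h1]
    refine integral_congr_ae (Filter.Eventually.of_forall fun s => ?_)
    change ∫ r, g (noise_S e (Function.update s i r)) ∂(noise_mu k) =
      ∫ r, k.ρ r • g (r • (noise_c e i • e i) + noise_S e (Function.update s i 0))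
    rw [noise_mu, integral_withDensity_eq_integral_toReal_smul (noise_meas k)
      (Filter.Eventually.of_forall fun r => ENNReal.ofReal_lt_top)]
    refine integral_congr_ae (Filter.Eventually.of_forall fun r => ?_)
    change (ENNReal.ofReal (k.ρ r)).toReal • g (noise_S e (Function.update s i r)) =
      k.ρ r • g (r • (noise_c e i • e i) + noise_S e (Function.update s i 0))
    rw [ENNReal.toReal_ofReal (k.nonneg r)]
    by_cases hr : 1 ≤ |r|
    · rw [k.supp r hr, zero_smul, zero_smul]
    · have hr' := abs_lt.1 (not_le.1 hr)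
      rw [noise_S_upd, noise_cl_of_mem ⟨hr'.1.le, hr'.2.le⟩]

end Pool.Agent.HB
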