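import Pool.Agent.HB.A.Defs

/-!
# HB.A.Partials: a map with continuous partial derivatives along a basis and small tails is `C¹`

PROOF.  Let `D n x : X →L[ℝ] Y`, `D n x h = ∑_{i<n} φ_i(h) • A i x`; `x ↦ D n x` is continuous (operator
norm; `D n x = ∑ (φ i).smulRight (A i x)`).
(1) For `h` in `span (e_0..e_{n-1})` (i.e. `PP e φ n h = h`): `HasDerivAt (fun t => G (x + t • h)) (D n x h) 0`
for all `x`.  Induction on `n`: `h = h' + a • e_n`; difference quotient
`[G(x+t h') - G x]/t + [G(x + t h' + t a e_n) - G(x + t h')]/t`, the second is the average of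
`a • A n (x + t h' + s a e_n)` over `s ∈ [0,t]` (mean value: `t ↦ G (z + t • e_n)` has derivative
`A n (z + t e_n)` at every `t`, by `hd` at the point `z + t e_n`), which tends to `a • A n x` by continuity of `A n`.
(2) `‖D m x h‖ ≤ Lip ‖h‖` for `h` in the span and, by `tail`, `‖D m x u‖ ≤ ε ‖u‖` for `u` in the span with
`PP e φ n u = 0`, `x` near `x₀` (derivative = limit of difference quotients `(G(x+t u) - G x)/t`).
For `m ≥ n`: `D m x - D n x = D m x ∘ (PP m - PP n)` and `PP n (PP m h - PP n h) = 0`, so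
`‖D m x - D n x‖ ≤ ε · 2K`.  Hence `D n` is locally uniformly Cauchy in operator norm, the limit `D x` is
continuous in `x` (`continuous_of_uniform_approx_of_continuous` / `TendstoLocallyUniformly.continuous`).
(3) For `h` in the span: `G (x + h) - G x = ` derivative of `t ↦ G(x + t h)` is `D (x + t h) h`, so
`‖G(x+h) - G x - D x h‖ ≤ sup_{t∈[0,1]} ‖D(x+th) - D x‖ · ‖h‖` (mean value inequality
`norm_image_sub_le_of_norm_deriv_le_segment_01'` for `t ↦ G (x+t h) - t • D x h`).
Both sides... for general `h`: `PP n h → h`, `G` continuous, `sup` over the ball of radius `2K‖h‖`; so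
`‖G(x+h) - G x - D x h‖ ≤ (sup_{‖z‖≤(K+1)‖h‖} ‖D(x+z) - D x‖) ‖h‖ (K+1)`: `HasFDerivAt G (D x) x`.
(4) `contDiff_one_iff_fderiv` (or `contDiff_succ_iff_hasFDerivAt`/`contDiff_one_iff...`).
-/

open Set

namespace Pool.Agent.HB

/-! ### Derivatives along lines -/

section Lines

variable {X Y : Type} [NormedAddCommGroup X] [NormedSpace ℝ X]
    [NormedAddCommGroup Y] [NormedSpace ℝ Y]

private theorem pd_shift {G : X → Y} {v : X} {B : X → Y}
    (hv : ∀ x, HasDerivAt (fun t : ℝ => G (x + t • v)) (B x) 0) (x : X) (s : ℝ) :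
    HasDerivAt (fun t : ℝ => G (x + t • v)) (B (x + s • v)) s := by
  have h : HasDerivAt (fun t : ℝ => G (x + s • v + t • v)) (B (x + s • v)) (s - s) := by
    rw [sub_self]
    exact hv (x + s • v)
  have h1 := HasDerivAt.comp_sub_const s s h
  have h2 : (fun t : ℝ => G (x + s • v + (t - s) • v)) = fun t : ℝ => G (x + t • v) := by
    funext t
    congr 1
    rw [sub_smul]
    abel
  rw [h2] at h1
  exact h1

/-- The mean value inequality along a line. -/
private theorem pd_mean {G : X → Y} {v : X} {B : X → Y}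
    (hv : ∀ x, HasDerivAt (fun t : ℝ => G (x + t • v)) (B x) 0) (x : X) (b : Y) (τ C : ℝ)
    (hC : ∀ s : ℝ, |s| ≤ |τ| → ‖B (x + s • v) - b‖ ≤ C) :
    ‖G (x + τ • v) - G x - τ • b‖ ≤ C * |τ| := by
  have h1 : ∀ s ∈ Metric.closedBall (0 : ℝ) |τ|,
      HasDerivWithinAt (fun s : ℝ => G (x + s • v) - s • b) (B (x + s • v) - b)
        (Metric.closedBall (0 : ℝ) |τ|) s := by
    intro s _
    have h2 : HasDerivAt (fun s : ℝ => s • b) ((1 : ℝ) • b) s :=
      (hasDerivAt_id s).smul_const b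
    rw [one_smul] at h2
    exact ((pd_shift hv x s).sub h2).hasDerivWithinAt
  have h2 := (convex_closedBall (0 : ℝ) |τ|).norm_image_sub_le_of_norm_hasDerivWithin_le
    (f := fun s : ℝ => G (x + s • v) - s • b) (f' := fun s => B (x + s • v) - b) (C := C)
    (x := 0) (y := τ) h1
    (fun s hs => hC s (by simpa using hs))
    (Metric.mem_closedBall_self (abs_nonneg _)) (by simp)
  simp only [zero_smul, add_zero, sub_zero, Real.norm_eq_abs] at h2
  rw [sub_right_comm]
  exact h2

private theorem pd_add {G : X → Y} {u v : X} {B : X → Y} (hB : Continuous B)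
    (hv : ∀ x, HasDerivAt (fun t : ℝ => G (x + t • v)) (B x) 0) (x : X) {b : Y}
    (hu : HasDerivAt (fun t : ℝ => G (x + t • u)) b 0) (a : ℝ) :
    HasDerivAt (fun t : ℝ => G (x + t • (u + a • v))) (b + a • B x) 0 := by
  have h1 : HasDerivAt (fun t : ℝ => G (x + t • (u + a • v)) - G (x + t • u)) (a • B x) 0 := by
    rw [hasDerivAt_iff_isLittleO_nhds_zero, Asymptotics.isLittleO_iff]
    intro ε hε
    have hε' : 0 < ε / (|a| + 1) := by positivity
    obtain ⟨δ, hδ, hδ'⟩ := Metric.continuousAt_iff.1 (hB.continuousAt (x := x))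
      (ε / (|a| + 1)) hε'
    have hM : 0 < ‖u‖ + |a| * ‖v‖ + 1 := by positivity
    have hev : ∀ᶠ t : ℝ in nhds 0, |t| < δ / (‖u‖ + |a| * ‖v‖ + 1) := by
      have h2 : Metric.ball (0 : ℝ) (δ / (‖u‖ + |a| * ‖v‖ + 1)) ∈ nhds (0 : ℝ) :=
        Metric.ball_mem_nhds _ (by positivity)
      filter_upwards [h2] with t ht
      simpa using ht
    filter_upwards [hev] with t ht
    rw [lt_div_iff₀ hM] at ht
    have h3 : ∀ s : ℝ, |s| ≤ |t * a| → ‖B (x + t • u + s • v) - B x‖ ≤ ε / (|a| + 1) := by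
      intro s hs
      have h4 : dist (x + t • u + s • v) x < δ := by
        rw [dist_eq_norm]
        have h5 : x + t • u + s • v - x = t • u + s • v := by abel
        rw [h5]
        calc ‖t • u + s • v‖ ≤ ‖t • u‖ + ‖s • v‖ := norm_add_le _ _
          _ = |t| * ‖u‖ + |s| * ‖v‖ := by
              rw [norm_smul, norm_smul, Real.norm_eq_abs, Real.norm_eq_abs]
          _ ≤ |t| * ‖u‖ + |t * a| * ‖v‖ := by gcongr
          _ = |t| * (‖u‖ + |a| * ‖v‖) := by rw [abs_mul]; ring
          _ ≤ |t| * (‖u‖ + |a| * ‖v‖ + 1) := by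
              have := abs_nonneg t
              nlinarith
          _ < δ := ht
      have h6 := hδ' h4
      rw [dist_eq_norm] at h6
      exact h6.le
    have h4 := pd_mean hv (x + t • u) (B x) (t * a) _ h3
    have h5 : G (x + (0 + t) • (u + a • v)) - G (x + (0 + t) • u) -
        (G (x + (0 : ℝ) • (u + a • v)) - G (x + (0 : ℝ) • u)) - t • a • B x =
        G (x + t • u + (t * a) • v) - G (x + t • u) - (t * a) • B x := by
      rw [zero_add, zero_smul, zero_smul, sub_self, sub_zero, smul_smul]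
      congr 3
      rw [smul_add, smul_smul]
      abel
    rw [h5]
    refine h4.trans ?_
    rw [abs_mul, Real.norm_eq_abs]
    have h6 : ε / (|a| + 1) * (|t| * |a|) = ε * |t| * (|a| / (|a| + 1)) := by ring
    rw [h6]
    have h7 : |a| / (|a| + 1) ≤ 1 := by
      rw [div_le_one (by positivity)]
      linarith [abs_nonneg a]
    exact mul_le_of_le_one_right (by positivity) h7
  have h2 := hu.add h1
  have h3 : (fun t : ℝ => G (x + t • u)) +
      (fun t : ℝ => G (x + t • (u + a • v)) - G (x + t • u)) =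
      fun t : ℝ => G (x + t • (u + a • v)) := by
    funext t
    simp only [Pi.add_apply]
    abel
  rw [h3] at h2
  exact h2

end Lines

/-! ### Partial sums -/

section Sums

variable {X Y : Type} [NormedAddCommGroup X] [NormedSpace ℝ X]
    [NormedAddCommGroup Y] [NormedSpace ℝ Y] {e : ℕ → X} {φ : ℕ → (X →L[ℝ] ℝ)} {K : ℝ}

private theorem pd_coef (hB : Bas e φ K) (m i : ℕ) (h : X) :
    φ i (PP e φ m h) = if i < m then φ i h else 0 := by
  unfold PP
  rw [map_sum]
  have h1 : ∀ j, φ i (φ j h • e j) = if i = j then φ i h else 0 := by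
    intro j
    rw [map_smul, hB.bio i j, smul_eq_mul]
    split_ifs with hij
    · rw [hij, mul_one]
    · rw [mul_zero]
  rw [Finset.sum_congr rfl fun j _ => h1 j, Finset.sum_ite_eq]
  simp only [Finset.mem_range]

/-- The approximate derivatives. -/
private noncomputable def pdD (φ : ℕ → (X →L[ℝ] ℝ)) (A : ℕ → X → Y) (n : ℕ) (x : X) :
    X →L[ℝ] Y := ∑ i ∈ Finset.range n, (φ i).smulRight (A i x)

private theorem pdD_apply (A : ℕ → X → Y) (n : ℕ) (x h : X) :
    pdD φ A n x h = ∑ i ∈ Finset.range n, φ i h • A i x := by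
  unfold pdD
  rw [_root_.sum_apply]
  rfl

private theorem pdD_cont {A : ℕ → X → Y} (hA : ∀ i, Continuous (A i)) (n : ℕ) :
    Continuous (pdD φ A n) := by
  unfold pdD
  refine continuous_finsetSum _ fun i _ => ?_
  exact (ContinuousLinearMap.smulRightL ℝ X Y (φ i)).continuous.comp (hA i)

/-- Values at partial sums. -/
private theorem pd_sum (hB : Bas e φ K) {Z : Type} [AddCommGroup Z] [Module ℝ Z] (a : ℕ → Z)
    {m k : ℕ} (hmk : m ≤ k) (h : X) :
    ∑ i ∈ Finset.range k, φ i (PP e φ m h) • a i = ∑ i ∈ Finset.range m, φ i h • a i := by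
  have h1 : ∑ i ∈ Finset.range m, φ i h • a i =
      ∑ i ∈ Finset.range m, φ i (PP e φ m h) • a i := by
    refine Finset.sum_congr rfl fun i hi => ?_
    rw [pd_coef hB, if_pos (Finset.mem_range.1 hi)]
  rw [h1]
  symm
  refine Finset.sum_subset (Finset.range_subset_range.2 hmk) fun i _ hi => ?_
  rw [Finset.mem_range] at hi
  rw [pd_coef hB, if_neg hi, zero_smul]

private theorem pd_sum' (hB : Bas e φ K) {Z : Type} [AddCommGroup Z] [Module ℝ Z] (a : ℕ → Z)
    {m k : ℕ} (hkm : k ≤ m) (h : X) :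
    ∑ i ∈ Finset.range k, φ i (PP e φ m h) • a i = ∑ i ∈ Finset.range k, φ i h • a i := by
  refine Finset.sum_congr rfl fun i hi => ?_
  rw [pd_coef hB, if_pos ((Finset.mem_range.1 hi).trans_le hkm)]

private theorem pd_PP_sub (m : ℕ) (x y : X) : PP e φ m (x - y) = PP e φ m x - PP e φ m y := by
  unfold PP
  rw [← Finset.sum_sub_distrib]
  refine Finset.sum_congr rfl fun i _ => ?_
  rw [map_sub, sub_smul]

private theorem pd_PP_smul (m : ℕ) (t : ℝ) (x : X) : PP e φ m (t • x) = t • PP e φ m x := by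
  unfold PP
  rw [Finset.smul_sum]
  refine Finset.sum_congr rfl fun i _ => ?_
  rw [map_smul, smul_eq_mul, mul_smul]

/-- The derivative in the directions of the span. -/
private theorem pd_dir (G : X → Y) {A : ℕ → X → Y} (hA : ∀ i, Continuous (A i))
    (hd : ∀ i x, HasDerivAt (fun t : ℝ => G (x + t • e i)) (A i x) 0) (n : ℕ) (x h : X) :
    HasDerivAt (fun t : ℝ => G (x + t • PP e φ n h)) (pdD φ A n x h) 0 := by
  rw [pdD_apply]
  induction n with
  | zero =>
    have h1 : (fun t : ℝ => G (x + t • PP e φ 0 h)) = fun _ => G x := by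
      funext t
      unfold PP
      rw [Finset.range_zero, Finset.sum_empty, smul_zero, add_zero]
    rw [h1, Finset.range_zero, Finset.sum_empty]
    exact hasDerivAt_const 0 _
  | succ n ih =>
    rw [Finset.sum_range_succ]
    have h1 : PP e φ (n + 1) h = PP e φ n h + φ n h • e n := by
      unfold PP
      rw [Finset.sum_range_succ]
    rw [h1]
    exact pd_add (hA n) (hd n) x ih (φ n h)

/-- The sequence of the approximate derivatives is locally uniformly Cauchy. -/
private theorem pd_cauchy (hB : Bas e φ K) (G : X → Y) {A : ℕ → X → Y}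
    (hA : ∀ i, Continuous (A i))
    (hd : ∀ i x, HasDerivAt (fun t : ℝ => G (x + t • e i)) (A i x) 0)
    (tail : ∀ x : X, ∀ ε : ℝ, 0 < ε → ∃ n : ℕ, ∃ r : ℝ, 0 < r ∧ ∀ y, ‖y - x‖ ≤ r →
      ∀ u, PP e φ n u = 0 → ‖u‖ ≤ r → ‖G (y + u) - G y‖ ≤ ε * ‖u‖) (x : X) {ε : ℝ}
    (hε : 0 < ε) :
    ∃ n : ℕ, ∃ r : ℝ, 0 < r ∧ ∀ y, ‖y - x‖ ≤ r → ∀ m, n ≤ m →
      ‖pdD φ A m y - pdD φ A n y‖ ≤ ε := by
  have hε' : 0 < ε / (2 * |K| + 1) := by positivity
  obtain ⟨n, r, hr, ht⟩ := tail x _ hε'
  refine ⟨n, r, hr, fun y hy m hm => ?_⟩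
  refine ContinuousLinearMap.opNorm_le_bound _ hε.le fun h => ?_
  obtain ⟨u, hu⟩ : ∃ u, u = PP e φ m h - PP e φ n h := ⟨_, rfl⟩
  have h1 : PP e φ m u = u := by
    rw [hu, pd_PP_sub]
    have e1 := pd_sum hB e (le_refl m) h
    have e2 := pd_sum hB e hm h
    unfold PP at e1 e2 ⊢
    rw [e1, e2]
  have h2 : PP e φ n u = 0 := by
    rw [hu, pd_PP_sub]
    have e1 := pd_sum' hB e hm h
    have e2 := pd_sum hB e (le_refl n) h
    unfold PP at e1 e2 ⊢
    rw [e1, e2, sub_self]
  have h3 : pdD φ A m y u = (pdD φ A m y - pdD φ A n y) h := by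
    rw [hu, map_sub, _root_.sub_apply]
    simp only [pdD_apply]
    rw [pd_sum hB (fun i => A i y) (le_refl m) h, pd_sum hB (fun i => A i y) hm h]
  have h4 := pd_dir (φ := φ) G hA hd m y u
  rw [h1, h3] at h4
  have h5 : ‖u‖ ≤ 2 * |K| * ‖h‖ := by
    rw [hu]
    calc ‖PP e φ m h - PP e φ n h‖ ≤ ‖PP e φ m h‖ + ‖PP e φ n h‖ := norm_sub_le _ _
      _ ≤ K * ‖h‖ + K * ‖h‖ := add_le_add (hB.bdd m h) (hB.bdd n h)
      _ ≤ |K| * ‖h‖ + |K| * ‖h‖ := by
          gcongr
          · exact le_abs_self K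
          · exact le_abs_self K
      _ = 2 * |K| * ‖h‖ := by ring
  have h6 : ‖(pdD φ A m y - pdD φ A n y) h‖ ≤ ε / (2 * |K| + 1) * ‖u‖ := by
    refine h4.le_of_lip' (by positivity) ?_
    have h7 : Metric.ball (0 : ℝ) (r / (‖u‖ + 1)) ∈ nhds (0 : ℝ) :=
      Metric.ball_mem_nhds _ (by positivity)
    filter_upwards [h7] with t hts
    rw [mem_ball_zero_iff, Real.norm_eq_abs, lt_div_iff₀ (by positivity)] at hts
    have h8 : ‖t • u‖ ≤ r := by
      rw [norm_smul, Real.norm_eq_abs]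
      have := abs_nonneg t
      nlinarith
    have h9 := ht y hy (t • u) (by rw [pd_PP_smul, h2, smul_zero]) h8
    rw [zero_smul, add_zero, sub_zero]
    refine h9.trans (le_of_eq ?_)
    rw [norm_smul]
    ring
  calc ‖(pdD φ A m y - pdD φ A n y) h‖ ≤ ε / (2 * |K| + 1) * ‖u‖ := h6
    _ ≤ ε / (2 * |K| + 1) * (2 * |K| * ‖h‖) := mul_le_mul_of_nonneg_left h5 hε'.le
    _ = ε * ‖h‖ * (2 * |K| / (2 * |K| + 1)) := by ring
    _ ≤ ε * ‖h‖ := by
        refine mul_le_of_le_one_right (by positivity) ?_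
        rw [div_le_one (by positivity)]
        linarith

/-- The derivative. -/
private theorem pd_fderiv (hB : Bas e φ K) (G : X → Y) (hG : Continuous G) {A : ℕ → X → Y}
    (hA : ∀ i, Continuous (A i))
    (hd : ∀ i x, HasDerivAt (fun t : ℝ => G (x + t • e i)) (A i x) 0) (D : X → X →L[ℝ] Y)
    (hDc : Continuous D)
    (hD : ∀ y, Filter.Tendsto (fun m => pdD φ A m y) Filter.atTop (nhds (D y))) (x : X) :
    HasFDerivAt G (D x) x := by
  have hval : ∀ m y h, D y (PP e φ m h) = pdD φ A m y h := by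
    intro m y h
    have h1 : Filter.Tendsto (fun k => pdD φ A k y (PP e φ m h)) Filter.atTop
        (nhds (D y (PP e φ m h))) :=
      ((ContinuousLinearMap.apply ℝ Y (PP e φ m h)).continuous.tendsto (D y)).comp (hD y)
    have h2 : Filter.Tendsto (fun k => pdD φ A k y (PP e φ m h)) Filter.atTop
        (nhds (pdD φ A m y h)) := by
      refine tendsto_const_nhds.congr' ?_
      filter_upwards [Filter.eventually_ge_atTop m] with k hk
      rw [pdD_apply, pdD_apply, pd_sum hB (fun i => A i y) hk h]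
    exact tendsto_nhds_unique h1 h2
  rw [hasFDerivAt_iff_isLittleO_nhds_zero, Asymptotics.isLittleO_iff]
  intro ε hε
  have hε' : 0 < ε / (|K| + 1) := by positivity
  obtain ⟨δ, hδ, hδ'⟩ := Metric.continuousAt_iff.1 (hDc.continuousAt (x := x))
    (ε / (|K| + 1)) hε'
  have h7 : Metric.ball (0 : X) (δ / (|K| + 1)) ∈ nhds (0 : X) :=
    Metric.ball_mem_nhds _ (by positivity)
  filter_upwards [h7] with h hh
  rw [mem_ball_zero_iff, lt_div_iff₀ (by positivity)] at hh
  have hPPn : ∀ m, ‖PP e φ m h‖ ≤ |K| * ‖h‖ := fun m =>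
    (hB.bdd m h).trans (mul_le_mul_of_nonneg_right (le_abs_self K) (norm_nonneg h))
  have hm : ∀ m, ‖G (x + PP e φ m h) - G x - D x (PP e φ m h)‖ ≤ ε * ‖h‖ := by
    intro m
    have h1 := pd_mean (G := G) (v := PP e φ m h) (B := fun z => pdD φ A m z h)
      (fun z => pd_dir G hA hd m z h) x (D x (PP e φ m h)) 1 (ε / (|K| + 1) * (|K| * ‖h‖))
      (fun s hs => by
        rw [abs_one] at hs
        have h2 : dist (x + s • PP e φ m h) x < δ := by
          rw [dist_eq_norm, add_sub_cancel_left, norm_smul, Real.norm_eq_abs]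
          calc |s| * ‖PP e φ m h‖ ≤ 1 * (|K| * ‖h‖) :=
                mul_le_mul hs (hPPn m) (norm_nonneg _) zero_le_one
            _ ≤ ‖h‖ * (|K| + 1) := by
                have := norm_nonneg h
                nlinarith
            _ < δ := hh
        have h3 := hδ' h2
        rw [dist_eq_norm] at h3
        rw [← hval, ← _root_.sub_apply]
        exact (ContinuousLinearMap.le_opNorm _ _).trans
          (mul_le_mul h3.le (hPPn m) (norm_nonneg _) hε'.le))
    rw [one_smul, one_smul, abs_one, mul_one] at h1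
    refine h1.trans ?_
    have h2 : ε / (|K| + 1) * (|K| * ‖h‖) = ε * ‖h‖ * (|K| / (|K| + 1)) := by ring
    rw [h2]
    refine mul_le_of_le_one_right (by positivity) ?_
    rw [div_le_one (by positivity)]
    linarith
  have hlim : Filter.Tendsto (fun m => ‖G (x + PP e φ m h) - G x - D x (PP e φ m h)‖)
      Filter.atTop (nhds ‖G (x + h) - G x - D x h‖) := by
    have h1 := hB.lim h
    have h2 : Continuous fun z : X => ‖G (x + z) - G x - D x z‖ := by fun_prop
    exact (h2.tendsto h).comp h1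
  exact le_of_tendsto' hlim hm

end Sums

theorem c1_of_partials {X Y : Type} [NormedAddCommGroup X] [NormedSpace ℝ X]
    [NormedAddCommGroup Y] [NormedSpace ℝ Y] [CompleteSpace Y]
    {e : ℕ → X} {φ : ℕ → (X →L[ℝ] ℝ)} {K : ℝ} (hB : Bas e φ K) (G : X → Y)
    (hLip : ∀ R : ℝ, ∃ L : ℝ, ∀ x y : X, ‖x‖ ≤ R → ‖y‖ ≤ R → ‖G x - G y‖ ≤ L * ‖x - y‖)
    (A : ℕ → X → Y) (hA : ∀ i, Continuous (A i))
    (hd : ∀ i x, HasDerivAt (fun t : ℝ => G (x + t • e i)) (A i x) 0)
    (tail : ∀ x : X, ∀ ε : ℝ, 0 < ε → ∃ n : ℕ, ∃ r : ℝ, 0 < r ∧ ∀ y, ‖y - x‖ ≤ r →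
      ∀ u, PP e φ n u = 0 → ‖u‖ ≤ r → ‖G (y + u) - G y‖ ≤ ε * ‖u‖) :
    ContDiff ℝ 1 G := by
  have hG : Continuous G := by
    rw [continuous_iff_continuousAt]
    intro x
    obtain ⟨L, hL⟩ := hLip (‖x‖ + 1)
    rw [Metric.continuousAt_iff']
    intro ε hε
    have h1 : Metric.ball x (min 1 (ε / (|L| + 1))) ∈ nhds x :=
      Metric.ball_mem_nhds _ (by positivity)
    filter_upwards [h1] with y hy
    rw [Metric.mem_ball, dist_eq_norm, lt_min_iff, lt_div_iff₀ (by positivity)] at hy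
    have h2 : ‖y‖ ≤ ‖x‖ + 1 := by
      calc ‖y‖ = ‖x + (y - x)‖ := by rw [add_sub_cancel]
        _ ≤ ‖x‖ + ‖y - x‖ := norm_add_le _ _
        _ ≤ ‖x‖ + 1 := by linarith [hy.1]
    have h3 := hL y x h2 (by linarith)
    rw [dist_eq_norm]
    have h4 : L * ‖y - x‖ ≤ |L| * ‖y - x‖ :=
      mul_le_mul_of_nonneg_right (le_abs_self L) (norm_nonneg _)
    have h5 := norm_nonneg (y - x)
    nlinarith [hy.2]
  have hc := fun (x : X) (ε : ℝ) (hε : 0 < ε) => pd_cauchy hB G hA hd tail x hε
  have hex : ∀ y, ∃ D : X →L[ℝ] Y,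
      Filter.Tendsto (fun m => pdD φ A m y) Filter.atTop (nhds D) := by
    intro y
    refine cauchySeq_tendsto_of_complete ?_
    rw [Metric.cauchySeq_iff']
    intro ε hε
    obtain ⟨n, r, hr, h1⟩ := hc y (ε / 2) (by positivity)
    refine ⟨n, fun m hm => ?_⟩
    rw [dist_eq_norm]
    refine (h1 y (by rw [sub_self, norm_zero]; exact hr.le) m hm).trans_lt (by linarith)
  choose D hD using hex
  have hDc : Continuous D := by
    rw [continuous_iff_continuousAt]
    intro x
    rw [Metric.continuousAt_iff']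
    intro ε hε
    obtain ⟨n, r, hr, h1⟩ := hc x (ε / 4) (by positivity)
    have h2 : ∀ y, ‖y - x‖ ≤ r → ‖D y - pdD φ A n y‖ ≤ ε / 4 := by
      intro y hy
      have h3 : Filter.Tendsto (fun m => ‖pdD φ A m y - pdD φ A n y‖) Filter.atTop
          (nhds ‖D y - pdD φ A n y‖) := ((hD y).sub_const _).norm
      refine le_of_tendsto h3 ?_
      filter_upwards [Filter.eventually_ge_atTop n] with m hm
      exact h1 y hy m hm
    have h3 : ∀ᶠ y in nhds x, dist (pdD φ A n y) (pdD φ A n x) < ε / 4 :=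
      Metric.continuousAt_iff'.1 (pdD_cont hA n).continuousAt (ε / 4) (by positivity)
    filter_upwards [h3, Metric.closedBall_mem_nhds x hr] with y hy hyr
    have h4 := h2 y (by rwa [Metric.mem_closedBall, dist_eq_norm] at hyr)
    have h5 := h2 x (by rw [sub_self, norm_zero]; exact hr.le)
    rw [dist_eq_norm] at hy ⊢
    have h6 : D y - D x = (D y - pdD φ A n y) + (pdD φ A n y - pdD φ A n x) -
        (D x - pdD φ A n x) := by abel
    rw [h6]
    have h7 := norm_sub_le ((D y - pdD φ A n y) + (pdD φ A n y - pdD φ A n x))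
      (D x - pdD φ A n x)
    have h8 := norm_add_le (D y - pdD φ A n y) (pdD φ A n y - pdD φ A n x)
    linarith
  rw [contDiff_one_iff_hasFDerivAt]
  exact ⟨D, hDc, fun x => pd_fderiv hB G hG hA hd D hDc hD x⟩

end Pool.Agent.HB
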