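import Pool.Agent.HB.A.Defs

/-!
# HB.A.Props: properties of `F x = ∫ f (x + W) dP` that do not need derivatives

PROOF.  Let `f` be convex, continuous.  `f` is bounded on compact sets, so `ω ↦ f (x + W ω)` is bounded and
strongly measurable, hence integrable.
(1) convex: integrate the convexity inequality.
(2) `f x ≤ F x`: by `N.symm` applied to `g w = f (x + w)`, `F x = ∫ ½ (f (x+W) + f (x-W)) ≥ f x` (convexity).
(3) second differences: `F(x+h)+F(x-h)-2F x = ∫ (second difference of f at x + W)`; `‖W‖ ≤ B` on the compact `K`,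
so apply `hb` with the radius `R + B`.
(4) tails: by compactness of `x + K`: for each `z ∈ x + K` choose `(n_z, r_z)` from `hc` for `ε`; the balls
`B(z, r_z/2)` cover; finite subcover; `n = max n_z`, `r = min r_z / 2`.  If `‖y - x‖ ≤ r` then `y + W ∈ B(z, r_z)` for some
`z` of the subcover, and `PP n h = 0` implies `PP n_z h = 0` for `n_z ≤ n`
(`PP n_z (PP n h) = PP n_z h` by biorthogonality; this is why `Bas` is assumed).  Integrate.
-/

open Set MeasureTheory

namespace Pool.Agent.HB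

/-- a positive lower bound for finitely many positive numbers -/
private theorem pos_lower {X : Type} (g : X → ℝ) (hg : ∀ x, 0 < g x) (t : Finset X) :
    ∃ r : ℝ, 0 < r ∧ ∀ z ∈ t, r ≤ g z := by
  classical
  induction t using Finset.induction_on with
  | empty => exact ⟨1, one_pos, fun z hz => absurd hz (Finset.notMem_empty z)⟩
  | insert a t _ ih =>
    obtain ⟨r, hr, h⟩ := ih
    refine ⟨min r (g a), lt_min hr (hg a), fun z hz => ?_⟩
    rcases Finset.mem_insert.mp hz with rfl | hz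
    · exact min_le_right _ _
    · exact (min_le_left _ _).trans (h z hz)

private theorem PP_zero_mono {X : Type} [NormedAddCommGroup X] [NormedSpace ℝ X]
    {e : ℕ → X} {φ : ℕ → (X →L[ℝ] ℝ)} {K : ℝ} (hB : Bas e φ K) {n m : ℕ} (hmn : m ≤ n) {h : X}
    (hh : PP e φ n h = 0) : PP e φ m h = 0 := by
  have h1 : ∀ i < n, φ i h = 0 := by
    intro i hi
    have h2 : φ i (PP e φ n h) = φ i h := by
      unfold PP
      rw [map_sum, Finset.sum_eq_single i]
      · rw [map_smul, hB.bio, if_pos rfl, smul_eq_mul, mul_one]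
      · intro j _ hj
        rw [map_smul, hB.bio, if_neg hj.symm, smul_zero]
      · intro hc
        exact absurd (Finset.mem_range.mpr hi) hc
    rw [← h2, hh, map_zero]
  unfold PP
  refine Finset.sum_eq_zero fun i hi => ?_
  rw [h1 i (by have := Finset.mem_range.mp hi; omega), zero_smul]

theorem props_main {X : Type} [NormedAddCommGroup X] [NormedSpace ℝ X]
    {e : ℕ → X} {φ : ℕ → (X →L[ℝ] ℝ)} {K : ℝ} (hB : Bas e φ K) (k : Kern) (N : Noise e k)
    (f : X → ℝ) (hconv : ConvexOn ℝ univ f) (hcont : Continuous f)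
    (hb : ∀ R : ℝ, ∃ C : ℝ, ∀ x h : X, ‖x‖ ≤ R → ‖h‖ ≤ R →
      f (x + h) + f (x - h) - 2 * f x ≤ C * ‖h‖ ^ 2)
    (hc : ∀ x : X, ∀ ε : ℝ, 0 < ε → ∃ n : ℕ, ∃ r : ℝ, 0 < r ∧ ∀ y, ‖y - x‖ ≤ r →
      ∀ h, PP e φ n h = 0 → ‖h‖ ≤ r → f (y + h) + f (y - h) - 2 * f y ≤ ε * ‖h‖ ^ 2) :
    letI := N.mΩ
    ∃ F : X → ℝ, (F = fun x => ∫ ω, f (x + N.W ω) ∂N.P) ∧ ConvexOn ℝ univ F ∧
      (∀ x, f x ≤ F x) ∧
      (∀ R : ℝ, ∃ C : ℝ, ∀ x h : X, ‖x‖ ≤ R → ‖h‖ ≤ R →
        F (x + h) + F (x - h) - 2 * F x ≤ C * ‖h‖ ^ 2) ∧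
      ∀ x : X, ∀ ε : ℝ, 0 < ε → ∃ n : ℕ, ∃ r : ℝ, 0 < r ∧ ∀ y, ‖y - x‖ ≤ r →
        ∀ h, PP e φ n h = 0 → ‖h‖ ≤ r → F (y + h) + F (y - h) - 2 * F y ≤ ε * ‖h‖ ^ 2 := by
  let _ := N.mΩ
  have : IsProbabilityMeasure N.P := N.prob
  have hint : ∀ x : X, Integrable (fun ω => f (x + N.W ω)) N.P := by
    intro x
    obtain ⟨B, hBd⟩ := N.comp.exists_bound_of_continuousOn (f := fun w => f (x + w))
      (by fun_prop)
    refine Integrable.of_bound (C := B) ?_ (Filter.Eventually.of_forall fun ω => hBd _ (N.WK ω))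
    exact (show Continuous (fun w => f (x + w)) by fun_prop).comp_stronglyMeasurable N.Wm
      |>.aestronglyMeasurable
  have hdd : ∀ (x h : X) (c : ℝ), (∀ ω, f (x + N.W ω + h) + f (x + N.W ω - h) -
      2 * f (x + N.W ω) ≤ c) →
      (∫ ω, f (x + h + N.W ω) ∂N.P) + (∫ ω, f (x - h + N.W ω) ∂N.P) -
        2 * (∫ ω, f (x + N.W ω) ∂N.P) ≤ c := by
    intro x h c hcc
    have e1 : (∫ ω, f (x + h + N.W ω) ∂N.P) + (∫ ω, f (x - h + N.W ω) ∂N.P) -
        2 * (∫ ω, f (x + N.W ω) ∂N.P) =
        ∫ ω, (f (x + h + N.W ω) + f (x - h + N.W ω) - 2 * f (x + N.W ω)) ∂N.P := by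
      have i1 : Integrable (fun ω => f (x + h + N.W ω) + f (x - h + N.W ω)) N.P :=
        (hint (x + h)).add (hint (x - h))
      rw [integral_sub i1 ((hint x).const_mul 2), integral_add (hint (x + h)) (hint (x - h)),
        integral_const_mul]
    rw [e1]
    have e2 : c = ∫ _ω, c ∂N.P := by
      rw [integral_const, probReal_univ, one_smul]
    rw [e2]
    refine integral_mono (((hint (x + h)).add (hint (x - h))).sub ((hint x).const_mul 2))
      (integrable_const _) fun ω => ?_
    have h1 := hcc ω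
    have e3 : x + N.W ω + h = x + h + N.W ω := by abel
    have e4 : x + N.W ω - h = x - h + N.W ω := by abel
    rw [e3, e4] at h1
    exact h1
  refine ⟨fun x => ∫ ω, f (x + N.W ω) ∂N.P, rfl, ?_, ?_, ?_, ?_⟩
  · refine ⟨convex_univ, fun x _ y _ a b ha hb' hab => ?_⟩
    simp only [smul_eq_mul]
    rw [← integral_const_mul, ← integral_const_mul,
      ← integral_add ((hint x).const_mul a) ((hint y).const_mul b)]
    refine integral_mono (hint _) (((hint x).const_mul a).add ((hint y).const_mul b))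
      fun ω => ?_
    have h1 := hconv.2 (mem_univ (x + N.W ω)) (mem_univ (y + N.W ω)) ha hb' hab
    have e1 : a • (x + N.W ω) + b • (y + N.W ω) = a • x + b • y + N.W ω := by
      have : N.W ω = (a + b) • N.W ω := by rw [hab, one_smul]
      rw [smul_add, smul_add]
      conv_rhs => rw [this, add_smul]
      abel
    rw [e1] at h1
    exact h1
  · intro x
    have h1 := N.symm ℝ (fun w => f (x + w)) (by fun_prop)
    have hint' : Integrable (fun ω => f (x + -N.W ω)) N.P := by
      obtain ⟨B, hBd⟩ := N.comp.exists_bound_of_continuousOn (f := fun w => f (x + -w))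
        (by fun_prop)
      refine Integrable.of_bound (C := B) ?_ (Filter.Eventually.of_forall fun ω => hBd _ (N.WK ω))
      exact (show Continuous (fun w => f (x + -w)) by fun_prop).comp_stronglyMeasurable N.Wm
        |>.aestronglyMeasurable
    have h2 : ∫ _ω, 2 * f x ∂N.P ≤ ∫ ω, (f (x + N.W ω) + f (x + -N.W ω)) ∂N.P := by
      refine integral_mono (integrable_const _) ((hint x).add hint') fun ω => ?_
      have h3 := hconv.2 (mem_univ (x + N.W ω)) (mem_univ (x + -N.W ω))
        (show (0 : ℝ) ≤ 1 / 2 by norm_num) (show (0 : ℝ) ≤ 1 / 2 by norm_num) (by norm_num)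
      have e1 : (1 / 2 : ℝ) • (x + N.W ω) + (1 / 2 : ℝ) • (x + -N.W ω) = x := by module
      rw [e1, smul_eq_mul, smul_eq_mul] at h3
      simp only
      linarith
    rw [integral_const, probReal_univ, one_smul, integral_add (hint x) hint'] at h2
    have h4 : ∫ ω, f (x + -N.W ω) ∂N.P = ∫ ω, f (x + N.W ω) ∂N.P := h1
    rw [h4] at h2
    simp only
    linarith
  · intro R
    obtain ⟨B, hBd⟩ := N.comp.exists_bound_of_continuousOn (f := fun w : X => w)
      (by fun_prop)
    obtain ⟨C, hC⟩ := hb (R + |B|)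
    refine ⟨C, fun x h hx hh => ?_⟩
    refine hdd x h _ fun ω => ?_
    refine hC _ h ?_ ?_
    · have h1 := hBd _ (N.WK ω)
      have h2 := le_abs_self B
      exact (norm_add_le _ _).trans (by linarith)
    · have := abs_nonneg B
      linarith
  · intro x ε hε
    choose nz rz hrz hz using fun z : X => hc z ε hε
    have hK : IsCompact ((fun w => x + w) '' N.K) := N.comp.image (by fun_prop)
    obtain ⟨t, _, hcov⟩ := hK.elim_nhds_subcover (fun z => Metric.ball z (rz z / 2))
      (fun z _ => Metric.ball_mem_nhds z (half_pos (hrz z)))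
    obtain ⟨r, hr, hrt⟩ := pos_lower (fun z => rz z / 2) (fun z => half_pos (hrz z)) t
    refine ⟨t.sup nz, r, hr, fun y hy h hh hhr => ?_⟩
    refine hdd y h _ fun ω => ?_
    have hmem : x + N.W ω ∈ ⋃ z ∈ t, Metric.ball z (rz z / 2) :=
      hcov ⟨_, N.WK ω, rfl⟩
    rw [mem_iUnion₂] at hmem
    obtain ⟨z, hzt, hzz⟩ := hmem
    rw [Metric.mem_ball, dist_eq_norm] at hzz
    have h1 := hrt z hzt
    refine hz z (y + N.W ω) ?_ h (PP_zero_mono hB (Finset.le_sup hzt) hh) ?_
    · have e1 : y + N.W ω - z = (y - x) + (x + N.W ω - z) := by abel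
      rw [e1]
      exact (norm_add_le _ _).trans (by linarith)
    · have := hrz z
      linarith

end Pool.Agent.HB
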