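import Pool.Agent.HB.A.C11
import Pool.Agent.HB.A.Conv1

/-!
# HB.A.Smooth: the smoothed function `F x = ∫ f (x + W) dP`

Let `f` be differentiable with `f'` Lipschitz on bounded sets (hypothesis `hL`), and
`F x = ∫ ω, f (x + N.W ω) ∂N.P`, `G x = ∫ ω, fderiv ℝ f (x + N.W ω) ∂N.P`.

PROOF.  `x + W` stays in the compact set `x + K`; `f`, `f'` are continuous, bounded on bounded sets.
(1) `HasFDerivAt F (G x) x`: `hasFDerivAt_integral_of_dominated_of_fderiv_le` on the ball of radius 1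
(the bound: `sup ‖f'‖` over a ball containing `x + K + ball 1`).
(2) `G` Lipschitz on balls: integrate the Lipschitz bound of `f'` on a larger ball.
(3) Directional derivative of `G` along `e i`: by `N.split` applied to `g = fun w => fderiv ℝ f (x + t • e i + w)`
(values in `X →L[ℝ] ℝ`, complete) `G (x + t • e i) = ∫ ω ∫ r, ρ r • f'(x + t • e i + r • (c i • e i) + V i ω)`;
with `v = c i • e i`, `t • e i = (t / c i) • v`, use `conv_deriv` (at all base points `x + t • e i`: the
derivative of `t ↦ ∫ ρ(r) g(x + t v + r v) dr` at `t₀` is the one at `0` with base point `x + t₀ v`) and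
`hasDerivAt_integral_of_dominated_loc_of_deriv_le` over `Ω`, with
`A i x = -(c i)⁻¹ • ∫ ω, (∫ r, deriv ρ r • f'(x + r • v + V i ω))`.  Continuity of `A i`: dominated
convergence (`continuous_of_dominated` locally, or `conv_cont` + Lipschitz: the map
`x ↦ ∫∫ ρ'(r) f'(x + r v + V)` is Lipschitz on bounded sets because `f'` is).
-/

open MeasureTheory

namespace Pool.Agent.HB

section

variable {X : Type} [NormedAddCommGroup X]

/-- a function which is Lipschitz on bounded sets is continuous -/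
private theorem sm_cont {Y : Type*} [NormedAddCommGroup Y] (g : X → Y)
    (hL : ∀ R : ℝ, ∃ K : ℝ, ∀ x y : X, ‖x‖ ≤ R → ‖y‖ ≤ R → ‖g x - g y‖ ≤ K * ‖x - y‖) :
    Continuous g := by
  rw [continuous_iff_continuousAt]
  intro x
  obtain ⟨K, hK⟩ := hL (‖x‖ + 1)
  rw [ContinuousAt, tendsto_iff_norm_sub_tendsto_zero]
  have h1 : Filter.Tendsto (fun y : X => K * ‖y - x‖) (nhds x) (nhds 0) := by
    have h2 : Continuous fun y : X => K * ‖y - x‖ := by fun_prop
    have h3 := h2.tendsto x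
    simpa using h3
  refine squeeze_zero' (Filter.Eventually.of_forall fun y => norm_nonneg _) ?_ h1
  filter_upwards [Metric.ball_mem_nhds x one_pos] with y hy
  rw [Metric.mem_ball, dist_eq_norm] at hy
  refine hK y x ?_ (by linarith)
  have h4 : ‖y‖ ≤ ‖y - x‖ + ‖x‖ := by
    have := norm_add_le (y - x) x
    rwa [sub_add_cancel] at this
  linarith

/-- a function which is Lipschitz on bounded sets is bounded on bounded sets -/
private theorem sm_bdd {Y : Type*} [NormedAddCommGroup Y] (g : X → Y)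
    (hL : ∀ R : ℝ, ∃ K : ℝ, ∀ x y : X, ‖x‖ ≤ R → ‖y‖ ≤ R → ‖g x - g y‖ ≤ K * ‖x - y‖) (R : ℝ) :
    ∃ B : ℝ, 0 ≤ B ∧ ∀ x : X, ‖x‖ ≤ R → ‖g x‖ ≤ B := by
  obtain ⟨K, hK⟩ := hL (max R 0)
  refine ⟨‖g 0‖ + |K| * max R 0, by positivity, fun x hx => ?_⟩
  have hx' : ‖x‖ ≤ max R 0 := hx.trans (le_max_left _ _)
  have h1 := hK x 0 hx' (by rw [norm_zero]; exact le_max_right _ _)
  rw [sub_zero] at h1
  have h2 : ‖g x‖ ≤ ‖g 0‖ + ‖g x - g 0‖ := by
    have := norm_add_le (g 0) (g x - g 0)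
    rwa [add_sub_cancel] at this
  have h3 : K * ‖x‖ ≤ |K| * max R 0 :=
    (mul_le_mul_of_nonneg_right (le_abs_self K) (norm_nonneg x)).trans
      (mul_le_mul_of_nonneg_left hx' (abs_nonneg K))
  linarith

end

theorem smooth_main {X : Type} [NormedAddCommGroup X] [NormedSpace ℝ X] [CompleteSpace X]
    (e : ℕ → X) (k : Kern) (N : Noise e k) (f : X → ℝ) (hf : Differentiable ℝ f)
    (hL : ∀ R : ℝ, ∃ K : ℝ, ∀ x y : X, ‖x‖ ≤ R → ‖y‖ ≤ R →
        ‖fderiv ℝ f x - fderiv ℝ f y‖ ≤ K * ‖x - y‖) :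
    letI := N.mΩ
    ∃ A : ℕ → X → (X →L[ℝ] ℝ), (∀ i, Continuous (A i)) ∧
      Differentiable ℝ (fun x => ∫ ω, f (x + N.W ω) ∂N.P) ∧
      (∀ R : ℝ, ∃ K : ℝ, ∀ x y : X, ‖x‖ ≤ R → ‖y‖ ≤ R →
        ‖fderiv ℝ (fun x => ∫ ω, f (x + N.W ω) ∂N.P) x
          - fderiv ℝ (fun x => ∫ ω, f (x + N.W ω) ∂N.P) y‖ ≤ K * ‖x - y‖) ∧
      ∀ i x, HasDerivAt (fun t : ℝ => fderiv ℝ (fun x => ∫ ω, f (x + N.W ω) ∂N.P) (x + t • e i))
        (A i x) 0 := by
  letI := N.mΩ
  haveI := N.prob
  set f' : X → (X →L[ℝ] ℝ) := fderiv ℝ f with hf'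
  have hcf : Continuous f := hf.continuous
  have hcf' : Continuous f' := sm_cont f' hL
  obtain ⟨M₀, hM₀⟩ := N.comp.isBounded.exists_norm_le
  set M : ℝ := max M₀ 0 with hM
  have hM0 : 0 ≤ M := le_max_right _ _
  have hW : ∀ ω, ‖N.W ω‖ ≤ M := fun ω => (hM₀ _ (N.WK ω)).trans (le_max_left _ _)
  have hV : ∀ i ω, ‖N.V i ω‖ ≤ M := fun i ω => (hM₀ _ (N.VK i ω)).trans (le_max_left _ _)
  -- f is Lipschitz on bounded sets
  have hfL : ∀ R : ℝ, ∃ B : ℝ, ∀ x y : X, ‖x‖ ≤ R → ‖y‖ ≤ R → ‖f x - f y‖ ≤ B * ‖x - y‖ := by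
    intro R
    obtain ⟨B, hB0, hB⟩ := sm_bdd f' hL R
    refine ⟨B, fun x y hx hy => ?_⟩
    have hconv : Convex ℝ (Metric.closedBall (0 : X) R) := convex_closedBall 0 R
    exact hconv.norm_image_sub_le_of_norm_fderiv_le (f := f) (fun z _ => hf z)
      (fun z hz => hB z (by rwa [mem_closedBall_zero_iff] at hz))
      (by rwa [mem_closedBall_zero_iff]) (by rwa [mem_closedBall_zero_iff])
  -- measurability
  have hWx : ∀ x : X, StronglyMeasurable fun ω => x + N.W ω := fun x =>
    (continuous_const.add continuous_id).comp_stronglyMeasurable N.Wm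
  have hVx : ∀ (i : ℕ) (x : X), StronglyMeasurable fun ω => x + N.V i ω := fun i x =>
    (continuous_const.add continuous_id).comp_stronglyMeasurable (N.Vm i)
  have hadd : ∀ (x w : X) (R : ℝ), ‖x‖ ≤ R → ‖w‖ ≤ M → ‖x + w‖ ≤ R + M := fun x w R hx hw =>
    (norm_add_le x w).trans (add_le_add hx hw)
  have hint : ∀ (Y : Type) [NormedAddCommGroup Y] [NormedSpace ℝ Y] [CompleteSpace Y]
      (g : X → Y) (_ : Continuous g)
      (_ : ∀ R : ℝ, ∃ K : ℝ, ∀ x y : X, ‖x‖ ≤ R → ‖y‖ ≤ R → ‖g x - g y‖ ≤ K * ‖x - y‖) (x : X),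
      Integrable (fun ω => g (x + N.W ω)) N.P := by
    intro Y _ _ _ g hg hgL x
    obtain ⟨B, hB0, hB⟩ := sm_bdd g hgL (‖x‖ + M)
    refine Integrable.of_bound (hg.comp_stronglyMeasurable (hWx x)).aestronglyMeasurable B ?_
    exact Filter.Eventually.of_forall fun ω => hB _ (hadd x _ _ le_rfl (hW ω))
  have hintf : ∀ x, Integrable (fun ω => f (x + N.W ω)) N.P := hint ℝ f hcf hfL
  have hintf' : ∀ x, Integrable (fun ω => f' (x + N.W ω)) N.P := hint _ f' hcf' hL
  -- the derivative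
  have hder : ∀ x, HasFDerivAt (fun x => ∫ ω, f (x + N.W ω) ∂N.P) (∫ ω, f' (x + N.W ω) ∂N.P) x := by
    intro x
    obtain ⟨B, hB0, hB⟩ := sm_bdd f' hL (‖x‖ + 1 + M)
    refine hasFDerivAt_integral_of_dominated_of_fderiv_le (F := fun x ω => f (x + N.W ω))
      (F' := fun x ω => f' (x + N.W ω)) (bound := fun _ => B) (Metric.ball_mem_nhds x one_pos)
      (Filter.Eventually.of_forall fun y =>
        (hcf.comp_stronglyMeasurable (hWx y)).aestronglyMeasurable)
      (hintf x) (hcf'.comp_stronglyMeasurable (hWx x)).aestronglyMeasurable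
      (Filter.Eventually.of_forall fun ω y hy => ?_) (integrable_const B)
      (Filter.Eventually.of_forall fun ω y _ => ?_)
    · refine hB _ (hadd y _ _ ?_ (hW ω))
      rw [Metric.mem_ball, dist_eq_norm] at hy
      have := norm_add_le (y - x) x
      rw [sub_add_cancel] at this
      linarith
    · have h1 : HasFDerivAt f (f' (y + N.W ω)) (y + N.W ω) := (hf _).hasFDerivAt
      exact (hasFDerivAt_comp_add_right (N.W ω)).2 h1
  have hfd : ∀ x, fderiv ℝ (fun x => ∫ ω, f (x + N.W ω) ∂N.P) x = ∫ ω, f' (x + N.W ω) ∂N.P :=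
    fun x => (hder x).fderiv
  -- the convolutions
  obtain ⟨D, hD0, hD⟩ := conv_bound k
  set v : ℕ → X := fun i => N.c i • e i with hv
  set H : ℕ → X → (X →L[ℝ] ℝ) := fun i x => ∫ r, deriv k.ρ r • f' (x + r • v i) with hH
  set H₀ : ℕ → X → (X →L[ℝ] ℝ) := fun i x => ∫ r, k.ρ r • f' (x + r • v i) with hH₀
  have hHc : ∀ i, Continuous (H i) := fun i => (conv_cont k f' hcf' (v i)).2
  have hH₀c : ∀ i, Continuous (H₀ i) := fun i => (conv_cont k f' hcf' (v i)).1
  have hHb : ∀ (i : ℕ) (R : ℝ), ∃ B : ℝ, 0 ≤ B ∧ ∀ x : X, ‖x‖ ≤ R → ‖H i x‖ ≤ B ∧ ‖H₀ i x‖ ≤ B := by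
    intro i R
    obtain ⟨B, hB0, hB⟩ := sm_bdd f' hL (R + ‖v i‖)
    refine ⟨max B (D * B), hB0.trans (le_max_left _ _), fun x hx => ?_⟩
    have h1 := hD f' hcf' (v i) x B hB0 (fun r hr => by
      refine hB _ ((norm_add_le _ _).trans (add_le_add hx ?_))
      rw [norm_smul, Real.norm_eq_abs]
      exact mul_le_of_le_one_left (norm_nonneg _) hr)
    exact ⟨h1.2.trans (le_max_right _ _), h1.1.trans (le_max_left _ _)⟩
  have hHd : ∀ (i : ℕ) (x : X) (s : ℝ),
      HasDerivAt (fun s : ℝ => H₀ i (x + s • v i)) (-H i (x + s • v i)) s := by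
    intro i x s
    have h1 := conv_deriv k f' hcf' (v i) (x + s • v i)
    have h2 : HasDerivAt (fun t : ℝ => H₀ i (x + s • v i + t • v i)) (-H i (x + s • v i))
        (s - s) := by
      rw [sub_self]
      exact h1
    have h3 := h2.comp_sub_const s s
    refine h3.congr_of_eventuallyEq (Filter.Eventually.of_forall fun t => ?_)
    simp only
    congr 1
    rw [sub_smul]
    abel
  have hsplit : ∀ (i : ℕ) (x : X), ∫ ω, f' (x + N.W ω) ∂N.P = ∫ ω, H₀ i (x + N.V i ω) ∂N.P := by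
    intro i x
    rw [N.split i (X →L[ℝ] ℝ) (fun w => f' (x + w)) (hcf'.comp (continuous_const.add continuous_id))]
    refine integral_congr_ae (Filter.Eventually.of_forall fun ω => ?_)
    simp only [hH₀]
    refine integral_congr_ae (Filter.Eventually.of_forall fun r => ?_)
    simp only [hv]
    congr 2
    abel
  have hHint : ∀ (i : ℕ) (x : X), Integrable (fun ω => H i (x + N.V i ω)) N.P := by
    intro i x
    obtain ⟨B, hB0, hB⟩ := hHb i (‖x‖ + M)
    refine Integrable.of_bound ((hHc i).comp_stronglyMeasurable (hVx i x)).aestronglyMeasurable B ?_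
    exact Filter.Eventually.of_forall fun ω => (hB _ (hadd x _ _ le_rfl (hV i ω))).1
  have hH₀int : ∀ (i : ℕ) (x : X), Integrable (fun ω => H₀ i (x + N.V i ω)) N.P := by
    intro i x
    obtain ⟨B, hB0, hB⟩ := hHb i (‖x‖ + M)
    refine Integrable.of_bound ((hH₀c i).comp_stronglyMeasurable (hVx i x)).aestronglyMeasurable B ?_
    exact Filter.Eventually.of_forall fun ω => (hB _ (hadd x _ _ le_rfl (hV i ω))).2
  refine ⟨fun i x => (N.c i)⁻¹ • -∫ ω, H i (x + N.V i ω) ∂N.P, fun i => ?_,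
    fun x => (hder x).differentiableAt, fun R => ?_, fun i x => ?_⟩
  · -- continuity of the partial derivatives
    suffices hs : Continuous fun x => ∫ ω, H i (x + N.V i ω) ∂N.P by
      have hs2 : Continuous fun x => (N.c i)⁻¹ • -∫ ω, H i (x + N.V i ω) ∂N.P := by
        fun_prop
      exact hs2
    rw [continuous_iff_continuousAt]
    intro x
    obtain ⟨B, hB0, hB⟩ := hHb i (‖x‖ + 1 + M)
    refine continuousAt_of_dominated (bound := fun _ => B)
      (Filter.Eventually.of_forall fun y =>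
        ((hHc i).comp_stronglyMeasurable (hVx i y)).aestronglyMeasurable) ?_ (integrable_const B)
      (Filter.Eventually.of_forall fun ω => ?_)
    · filter_upwards [Metric.ball_mem_nhds x one_pos] with y hy
      refine Filter.Eventually.of_forall fun ω => (hB _ (hadd y _ _ ?_ (hV i ω))).1
      rw [Metric.mem_ball, dist_eq_norm] at hy
      have := norm_add_le (y - x) x
      rw [sub_add_cancel] at this
      linarith
    · exact ((hHc i).comp (continuous_id.add continuous_const)).continuousAt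
  · -- Lipschitz
    obtain ⟨K, hK⟩ := hL (R + M)
    refine ⟨K, fun x y hx hy => ?_⟩
    rw [hfd, hfd, ← integral_sub (hintf' x) (hintf' y)]
    have h1 := norm_integral_le_of_norm_le_const (μ := N.P)
      (f := fun ω => f' (x + N.W ω) - f' (y + N.W ω)) (C := K * ‖x - y‖)
      (Filter.Eventually.of_forall fun ω => by
        have h2 := hK (x + N.W ω) (y + N.W ω) (hadd x _ _ hx (hW ω)) (hadd y _ _ hy (hW ω))
        rwa [add_sub_add_right_eq_sub] at h2)
    rwa [probReal_univ, mul_one] at h1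
  · -- the partial derivatives
    have h1 : HasDerivAt (fun s : ℝ => ∫ ω, H₀ i (x + N.V i ω + s • v i) ∂N.P)
        (∫ ω, -H i (x + N.V i ω + (0 : ℝ) • v i) ∂N.P) 0 := by
      obtain ⟨B, hB0, hB⟩ := hHb i (‖x‖ + M + ‖v i‖)
      have hnorm : ∀ (s : ℝ) (ω : N.Ω), |s| ≤ 1 →
          ‖x + N.V i ω + s • v i‖ ≤ ‖x‖ + M + ‖v i‖ := by
        intro s ω hs
        refine (norm_add_le _ _).trans (add_le_add (hadd x _ _ le_rfl (hV i ω)) ?_)
        rw [norm_smul, Real.norm_eq_abs]
        exact mul_le_of_le_one_left (norm_nonneg _) hs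
      have hsm : ∀ s : ℝ, StronglyMeasurable fun ω => x + N.V i ω + s • v i := fun s =>
        (continuous_id.add continuous_const).comp_stronglyMeasurable (hVx i x)
      refine (hasDerivAt_integral_of_dominated_loc_of_deriv_le
        (F := fun (s : ℝ) ω => H₀ i (x + N.V i ω + s • v i))
        (F' := fun (s : ℝ) ω => -H i (x + N.V i ω + s • v i)) (bound := fun _ => B)
        (Metric.ball_mem_nhds 0 one_pos)
        (Filter.Eventually.of_forall fun s =>
          ((hH₀c i).comp_stronglyMeasurable (hsm s)).aestronglyMeasurable) ?_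
        ((hHc i).neg.comp_stronglyMeasurable (hsm 0)).aestronglyMeasurable
        (Filter.Eventually.of_forall fun ω s hs => ?_) (integrable_const B)
        (Filter.Eventually.of_forall fun ω s _ => hHd i (x + N.V i ω) s)).2
      · simp only [zero_smul, add_zero]
        exact hH₀int i x
      · rw [Metric.mem_ball, dist_zero_right, Real.norm_eq_abs] at hs
        rw [norm_neg]
        exact (hB _ (hnorm s ω hs.le)).1
    simp only [zero_smul, add_zero] at h1
    rw [integral_neg] at h1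
    have hc0 : N.c i ≠ 0 := (N.cpos i).ne'
    have h2 : HasDerivAt (fun t : ℝ => (N.c i)⁻¹ * t) ((N.c i)⁻¹) 0 := by
      simpa using (hasDerivAt_id (0 : ℝ)).const_mul ((N.c i)⁻¹)
    have h1' : HasDerivAt (fun s : ℝ => ∫ ω, H₀ i (x + N.V i ω + s • v i) ∂N.P)
        (-∫ ω, H i (x + N.V i ω) ∂N.P) ((N.c i)⁻¹ * 0) := by
      rw [mul_zero]
      exact h1
    have h3 := h1'.scomp (0 : ℝ) h2
    refine h3.congr_of_eventuallyEq (Filter.Eventually.of_forall fun t => ?_)
    simp only [Function.comp_apply]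
    rw [hfd, hsplit i]
    refine integral_congr_ae (Filter.Eventually.of_forall fun ω => ?_)
    simp only [hv]
    congr 1
    rw [smul_smul, mul_comm _ (N.c i), ← mul_assoc, mul_inv_cancel₀ hc0, one_mul]
    abel

end Pool.Agent.HB
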