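import Pool.Agent.HB.A.Defs

/-!
# HB.A.Tail: tail bound for the gradient of a convex function from second differences

PROOF.  Let `Δ y h = f (y+h) + f (y-h) - 2 f y ≥ 0` (convexity), convex in `h`, so
`Δ y (u+k) ≤ ½ Δ y (2u) + ½ Δ y (2k)`.  Subgradient inequalities (`hsub`):
`f(y+u+k) ≥ f(y+u) + f'(y+u) k`, `f(y+u) ≥ f(y) + f'(y) u`, and `f(y-u-k) ≥ f(y) - f'(y)(u+k)`.  Hence
`(f'(y+u) - f'(y)) k ≤ f(y+u+k) - f(y+u) - f'(y) k ≤ f(y+u+k) - f(y) - f'(y)(u+k) ≤ Δ y (u+k)`.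
Given `x, ε`: let `C` be the constant of `hb` for the radius `‖x‖ + 3` (w.l.o.g. `C ≥ 1`), let `ε' ≤ C` be such
that `4 √(ε' C) ≤ ε`, take `(n, r)` from `hc` for `ε'` (and `x`), shrink `r ≤ 1`.  For `‖y-x‖ ≤ r/2`, `PP n u = 0`,
`‖u‖ ≤ r/2`, `u ≠ 0`, and `k` with `‖k‖ = √(ε'/C) ‖u‖ ≤ ‖u‖`:
`(f'(y+u) - f'(y)) k ≤ ½ ε' 4‖u‖² + ½ C 4 ‖k‖² = 4 ε' ‖u‖²`, so dividing by `‖k‖`,
`‖f'(y+u) - f'(y)‖ ≤ 4 ε' ‖u‖² / (√(ε'/C) ‖u‖) = 4 √(ε' C) ‖u‖ ≤ ε ‖u‖`.  (`PP n (2u) = 0` by linearity.)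
(If `X` is trivial everything is zero.)
-/

open Set

namespace Pool.Agent.HB

/-- a bound for a functional on a sphere -/
private theorem op_bound {X : Type} [NormedAddCommGroup X] [NormedSpace ℝ X] (T : X →L[ℝ] ℝ)
    {M s : ℝ} (hM : 0 ≤ M) (hs : 0 < s) (h : ∀ k, ‖k‖ = s → T k ≤ M * s) : ‖T‖ ≤ M := by
  have key : ∀ k, T k ≤ M * ‖k‖ := by
    intro k
    by_cases hk : k = 0
    · subst hk
      simp
    · have hk0 : 0 < ‖k‖ := norm_pos_iff.mpr hk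
      have h1 : ‖(s / ‖k‖) • k‖ = s := by
        rw [norm_smul, Real.norm_eq_abs, abs_of_pos (by positivity)]
        field_simp
      have h2 := h _ h1
      rw [map_smul, smul_eq_mul, div_mul_eq_mul_div, div_le_iff₀ hk0] at h2
      have h3 : s * T k ≤ s * (M * ‖k‖) := by linarith
      exact le_of_mul_le_mul_left h3 hs
  refine T.opNorm_le_bound hM fun k => ?_
  rw [Real.norm_eq_abs, abs_le]
  refine ⟨?_, key k⟩
  have h1 := key (-k)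
  rw [map_neg, norm_neg] at h1
  linarith

theorem tail_grad {X : Type} [NormedAddCommGroup X] [NormedSpace ℝ X]
    {e : ℕ → X} {φ : ℕ → (X →L[ℝ] ℝ)} (f : X → ℝ) (hconv : ConvexOn ℝ univ f)
    (hsub : ∀ x h, f x + fderiv ℝ f x h ≤ f (x + h))
    (hb : ∀ R : ℝ, ∃ C : ℝ, ∀ x h : X, ‖x‖ ≤ R → ‖h‖ ≤ R →
      f (x + h) + f (x - h) - 2 * f x ≤ C * ‖h‖ ^ 2)
    (hc : ∀ x : X, ∀ ε : ℝ, 0 < ε → ∃ n : ℕ, ∃ r : ℝ, 0 < r ∧ ∀ y, ‖y - x‖ ≤ r →
      ∀ h, PP e φ n h = 0 → ‖h‖ ≤ r → f (y + h) + f (y - h) - 2 * f y ≤ ε * ‖h‖ ^ 2) :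
    ∀ x : X, ∀ ε : ℝ, 0 < ε → ∃ n : ℕ, ∃ r : ℝ, 0 < r ∧ ∀ y, ‖y - x‖ ≤ r →
      ∀ u, PP e φ n u = 0 → ‖u‖ ≤ r → ‖fderiv ℝ f (y + u) - fderiv ℝ f y‖ ≤ ε * ‖u‖ := by
  intro x ε hε
  obtain ⟨C0, hC0⟩ := hb (‖x‖ + 3)
  set C : ℝ := max C0 1 with hC
  have hC1 : 1 ≤ C := le_max_right _ _
  have hC2 : C0 ≤ C := le_max_left _ _
  have hCp : 0 < C := by linarith
  set ε' : ℝ := min C (ε ^ 2 / (16 * C)) with hε'
  have he0 : 0 < ε' := lt_min hCp (by positivity)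
  have he1 : ε' ≤ C := min_le_left _ _
  have he2 : 16 * (ε' * C) ≤ ε ^ 2 := by
    have h1 : ε' ≤ ε ^ 2 / (16 * C) := min_le_right _ _
    rw [le_div_iff₀ (by positivity)] at h1
    linarith
  obtain ⟨n, r0, hr0, hn⟩ := hc x ε' he0
  set r : ℝ := min r0 1 / 2 with hr
  have hrp : 0 < r := by
    have : 0 < min r0 1 := lt_min hr0 one_pos
    rw [hr]
    linarith
  have hr1 : 2 * r ≤ r0 := by
    have : min r0 1 ≤ r0 := min_le_left _ _
    rw [hr]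
    linarith
  have hr2 : 2 * r ≤ 1 := by
    have : min r0 1 ≤ 1 := min_le_right _ _
    rw [hr]
    linarith
  refine ⟨n, r, hrp, ?_⟩
  intro y hy u hu hur
  by_cases hu0 : u = 0
  · subst hu0
    simp
  have hup : 0 < ‖u‖ := norm_pos_iff.mpr hu0
  -- the parameters
  set q : ℝ := Real.sqrt (ε' / C) with hq
  have hq0 : 0 < q := Real.sqrt_pos.mpr (by positivity)
  have hqsq : q ^ 2 = ε' / C := Real.sq_sqrt (by positivity)
  have hCq : C * q ^ 2 = ε' := by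
    rw [hqsq]
    field_simp
  have hq1 : q ≤ 1 := by
    rw [hq]
    apply Real.sqrt_le_one.mpr
    rw [div_le_one hCp]
    exact he1
  have hCqε : 4 * (C * q) ≤ ε := by
    have h1 : (4 * (C * q)) ^ 2 ≤ ε ^ 2 := by
      have : (4 * (C * q)) ^ 2 = 16 * (C * q ^ 2 * C) := by ring
      rw [this, hCq]
      exact he2
    exact le_of_sq_le_sq h1 hε.le
  have hmain : ‖fderiv ℝ f (y + u) - fderiv ℝ f y‖ ≤ 4 * (C * q) * ‖u‖ := by
    refine op_bound _ (by positivity) (s := q * ‖u‖) (by positivity) ?_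
    intro k hk
    have hk1 : ‖k‖ ≤ r := by
      rw [hk]
      nlinarith
    -- the two second differences
    have d1 := hn y (by linarith) ((2 : ℝ) • u) (by
      have : PP e φ n ((2 : ℝ) • u) = (2 : ℝ) • PP e φ n u := by
        unfold PP
        rw [Finset.smul_sum]
        refine Finset.sum_congr rfl fun i _ => ?_
        rw [map_smul, smul_eq_mul, mul_smul]
      rw [this, hu, smul_zero]) (by
        rw [norm_smul, Real.norm_eq_abs, abs_of_pos (by norm_num : (0 : ℝ) < 2)]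
        linarith)
    have hyn : ‖y‖ ≤ ‖x‖ + 3 := by
      have h1 : ‖y‖ ≤ ‖y - x‖ + ‖x‖ := by
        have := norm_add_le (y - x) x
        rwa [sub_add_cancel] at this
      linarith
    have d2 := hC0 y ((2 : ℝ) • k) hyn (by
      rw [norm_smul, Real.norm_eq_abs, abs_of_pos (by norm_num : (0 : ℝ) < 2)]
      have := norm_nonneg x
      linarith)
    rw [norm_smul, Real.norm_eq_abs, abs_of_pos (by norm_num : (0 : ℝ) < 2)] at d1 d2
    -- convexity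
    have c1 := hconv.2 (mem_univ (y + (2 : ℝ) • u)) (mem_univ (y + (2 : ℝ) • k))
      (show (0 : ℝ) ≤ 1 / 2 by norm_num) (show (0 : ℝ) ≤ 1 / 2 by norm_num) (by norm_num)
    have c2 := hconv.2 (mem_univ (y - (2 : ℝ) • u)) (mem_univ (y - (2 : ℝ) • k))
      (show (0 : ℝ) ≤ 1 / 2 by norm_num) (show (0 : ℝ) ≤ 1 / 2 by norm_num) (by norm_num)
    have e1 : (1 / 2 : ℝ) • (y + (2 : ℝ) • u) + (1 / 2 : ℝ) • (y + (2 : ℝ) • k) = y + u + k := by
      module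
    have e2 : (1 / 2 : ℝ) • (y - (2 : ℝ) • u) + (1 / 2 : ℝ) • (y - (2 : ℝ) • k) =
        y + -(u + k) := by
      module
    rw [e1, smul_eq_mul, smul_eq_mul] at c1
    rw [e2, smul_eq_mul, smul_eq_mul] at c2
    -- subgradients
    have s1 := hsub (y + u) k
    have s2 := hsub y u
    have s3 := hsub y (-(u + k))
    rw [map_neg, map_add] at s3
    have hk2 : C0 * (2 * ‖k‖) ^ 2 ≤ C * (2 * ‖k‖) ^ 2 :=
      mul_le_mul_of_nonneg_right hC2 (by positivity)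
    have hk3 : C * (2 * ‖k‖) ^ 2 = 4 * (C * q ^ 2) * ‖u‖ ^ 2 := by
      rw [hk]
      ring
    rw [hCq] at hk3
    have hfin : 4 * (C * q) * ‖u‖ * (q * ‖u‖) = 4 * (C * q ^ 2) * ‖u‖ ^ 2 := by ring
    rw [hfin, hCq, _root_.sub_apply]
    have hd1 : ε' * (2 * ‖u‖) ^ 2 = 4 * ε' * ‖u‖ ^ 2 := by ring
    linarith
  exact hmain.trans (mul_le_mul_of_nonneg_right hCqε (norm_nonneg _))

end Pool.Agent.HB
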