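import Pool.Agent.HB.A.Kern
import Pool.Agent.HB.A.Noise
import Pool.Agent.HB.A.Smooth
import Pool.Agent.HB.A.Partials
import Pool.Agent.HB.A.Tail
import Pool.Agent.HB.A.Props

/-!
# HB.A.Main: the abstract criterion for a `C²` bump

PROOF.  `f x = ‖x‖³` is convex and continuous; `hb` gives quadratic second differences on balls
(`C (‖x‖+‖h‖) ≤ 2 C R`).  Take a kernel, a noise for `e`, `F x = ∫ f (x + W)`.  `c11` for `f` gives
`Differentiable f` and the Lipschitz bound for `smooth_main`; `props_main` gives convexity, second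
differences, tails of `F`; `smooth_main` gives `Differentiable F`, `fderiv F` Lipschitz on balls with
continuous partials `A i`; `c11` for `F` gives the subgradient inequality; `tail_grad` for `F` gives the tail
hypothesis of `c1_of_partials` for `G = fderiv ℝ F`.  So `fderiv ℝ F` is `C¹` and `F` is `C²`
(`contDiff_succ_iff_fderiv`).  The bump: `b x = Real.smoothTransition (F 0 + 1 - F x)`; `b 0 = 1`; `b x ≠ 0` implies
`‖x‖³ ≤ F x < F 0 + 1`.
-/

open Set

namespace Pool.Agent.HB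

theorem partA {X : Type} [NormedAddCommGroup X] [NormedSpace ℝ X] [CompleteSpace X]
    {e : ℕ → X} {φ : ℕ → (X →L[ℝ] ℝ)} {K : ℝ} (hB : Bas e φ K) (C : ℝ)
    (hb : ∀ x h : X, ‖x + h‖ ^ 3 + ‖x - h‖ ^ 3 - 2 * ‖x‖ ^ 3 ≤ C * (‖x‖ + ‖h‖) * ‖h‖ ^ 2)
    (hc : ∀ x : X, ∀ ε : ℝ, 0 < ε → ∃ n : ℕ, ∃ r : ℝ, 0 < r ∧ ∀ y, ‖y - x‖ ≤ r →
      ∀ h, PP e φ n h = 0 → ‖h‖ ≤ r →
        ‖y + h‖ ^ 3 + ‖y - h‖ ^ 3 - 2 * ‖y‖ ^ 3 ≤ ε * ‖h‖ ^ 2) :
    ∃ b : X → ℝ, ContDiff ℝ 2 b ∧ b ≠ 0 ∧ Bornology.IsBounded (Function.support b) := by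
  obtain ⟨k⟩ := kern_nonempty
  obtain ⟨N⟩ := noise_exists e k
  letI := N.mΩ
  set f : X → ℝ := fun x => ‖x‖ ^ 3 with hf
  have hconv : ConvexOn ℝ univ f := (convexOn_univ_norm (E := X)).pow (fun x _ => norm_nonneg x) 3
  have hcont : Continuous f := by
    rw [hf]
    fun_prop
  have hb' : ∀ R : ℝ, ∃ C : ℝ, ∀ x h : X, ‖x‖ ≤ R → ‖h‖ ≤ R →
      f (x + h) + f (x - h) - 2 * f x ≤ C * ‖h‖ ^ 2 := by
    intro R
    refine ⟨|C| * (R + R), fun x h hx hh => (hb x h).trans ?_⟩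
    refine mul_le_mul_of_nonneg_right ?_ (by positivity)
    calc C * (‖x‖ + ‖h‖) ≤ |C| * (‖x‖ + ‖h‖) :=
          mul_le_mul_of_nonneg_right (le_abs_self C) (by positivity)
      _ ≤ |C| * (R + R) := mul_le_mul_of_nonneg_left (by linarith) (abs_nonneg C)
  obtain ⟨hfd, -, hfL⟩ := c11 hconv hcont hb'
  obtain ⟨A, hA, hFd, hFL, hpart⟩ := smooth_main e k N f hfd hfL
  obtain ⟨F, hF, hFc, hfF, hFb, hFt⟩ := props_main hB k N f hconv hcont hb' hc
  rw [← hF] at hFd hFL hpart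
  obtain ⟨-, hsub, -⟩ := c11 hFc hFd.continuous hFb
  have htail := tail_grad F hFc hsub hFb hFt
  have hC1 := c1_of_partials hB (fderiv ℝ F) hFL A hA hpart htail
  have hC2 : ContDiff ℝ 2 F := by
    rw [show (2 : WithTop ℕ∞) = 1 + 1 from (one_add_one_eq_two).symm, contDiff_succ_iff_fderiv]
    exact ⟨hFd, fun h => absurd h (by simp), hC1⟩
  refine ⟨fun x => Real.smoothTransition (F 0 + 1 - F x), ?_, ?_, ?_⟩
  · exact Real.smoothTransition.contDiff.comp (contDiff_const.sub hC2)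
  · intro h
    have h1 := congrFun h 0
    simp only [add_sub_cancel_left, Real.smoothTransition.one, Pi.zero_apply] at h1
    exact one_ne_zero h1
  · rw [isBounded_iff_forall_norm_le]
    refine ⟨max 1 (F 0 + 1), fun x hx => ?_⟩
    rw [Function.mem_support] at hx
    have h1 : 0 < F 0 + 1 - F x := by
      by_contra h
      exact hx (Real.smoothTransition.zero_of_nonpos (not_lt.1 h))
    have h2 : ‖x‖ ^ 3 ≤ F x := hfF x
    rcases le_total ‖x‖ 1 with h3 | h3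
    · exact h3.trans (le_max_left _ _)
    · refine le_trans ?_ (le_max_right _ _)
      have h4 : ‖x‖ ≤ ‖x‖ ^ 3 := le_self_pow₀ h3 (by norm_num)
      linarith

end Pool.Agent.HB
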